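import Mathlib
import Pool.Agent.N495.TS.LineN

/-!
# Project TQ (helper9): statements of the packages, with complete proofs

Aim (hard row MP_160b6c_nt): for every `β > 0` there are `N`, `C` such that for EVERY number field `K` (no
bound for the degree), every `g` and every abelian variety over `K` isogenous over `K` to a product of
`g` elliptic curves `E_i / K` with `h(j_i) ≥ C [K : ℚ]` and `∑_{poles of j_i} log N v ≥ β h(j_i)` (bounded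
Szpiro ratio), all torsion points over `K` have order at most `N ^ (2g)`.

Notation: a curve `y² = x³ + a x + b` with roots `-2e`, `e + η`, `e - η` of the cubic (`a = cA e η`,
`b = cB e η` of `Y673.Loc.Pts`), `z = (x - e) / (3 e)`, `ε = (η / (3 e)) ^ 2`; in the coordinate `z` the
cubic is `(z + 1) (z² - ε)` up to a factor. The circle `ℝ / 2H`, `2H = - log |ε|`, is the group of
components of the degenerate fibre, also at a complex place, up to bounded errors: the level of a point is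
`min(H, max(0, - log |z|))`.
-/

set_option autoImplicit false

namespace Pool.Agent.P8H9.TQ

open WeierstrassCurve NumberField IsDedekindDomain Pool.Agent.H901R3.MS Pool.Agent.Y673.Loc
open Pool.Agent.Y673.Loc.ZV Pool.Agent.W275.FM Pool.Agent.W275.FMK Pool.Agent.Y673.FM
open Pool.Agent.H691R3 Pool.Agent.W223.AK Pool.Agent.Y733.LS Pool.Agent.TH942
open Pool.Agent.Q19.SU

/-! ### Definitions -/

/-- the distance to the nearest integer -/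
noncomputable def dn (t : ℝ) : ℝ := |t - round t|

/-- the periodic second Bernoulli polynomial -/
noncomputable def Bf (t : ℝ) : ℝ := dn t ^ 2 - dn t + 1 / 6

/-- the clamped size of a complex number, in `[h, 1]` -/
noncomputable def clp (h : ℝ) (z : ℂ) : ℝ := max (min ‖z‖ 1) h

/-- the level of a complex number, in `[0, - log h]` -/
noncomputable def lev (h : ℝ) (z : ℂ) : ℝ := -Real.log (clp h z)

/-- `{s, t}` is `{p, q}` up to an error `c` -/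
def Near (c s t p q : ℝ) : Prop := (|s - p| ≤ c ∧ |t - q| ≤ c) ∨ (|s - q| ≤ c ∧ |t - p| ≤ c)

/-- the absolute value of the complex numbers -/
noncomputable def cab : AbsoluteValue ℂ ℝ := IsAbsoluteValue.toAbsoluteValue (norm : ℂ → ℝ)

/-- the loss of the local height under duplication -/
noncomputable def kap {K : Type} [Field K] (w : AbsoluteValue K ℝ) (a b x : K) : ℝ :=
  4 * Real.log (max (w x) (sz w a b)) - Real.log (max (w (pF a b x)) (sz w a b * w (pG a b x)))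

/-- the level of a point at the complex place -/
noncomputable def Lev (e η : ℂ) (P : Pt (cA e η) (cB e η)) : ℝ :=
  match P with
  | Affine.Point.zero => 0
  | Affine.Point.some x _ _ => lev ‖η / (3 * e)‖ ((x - e) / (3 * e))

/-! ### FEJ, TEL: two facts on the function `Bf` -/

/-- **FEJ.** Proof: for `t` with `y = dn t ∈ [0, 1/2]` the Fourier series of the second Bernoulli polynomial
(Mathlib: `hasSum_one_div_nat_pow_mul_cos` with `k = 1`, for the number `Int.fract t ∈ [0, 1]`) gives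
`Bf t = ∑_{n ≥ 1} cos (2 π n t) / (π² n²)` (the value `x² - x + 1/6` is the same at `y` and `1 - y`). Fejér:
`L + 2 ∑_{k=1}^{L-1} (L - k) cos (k θ) = |∑_{j<L} e^{i j θ}|² ≥ 0`, so `∑_{k=1}^{L-1} (1 - k/L) cos (k θ) ≥
- 1/2`. Multiply by `1 / (π² n²)` with `θ = 2 π n t` and sum over `n`: the sum is at least
`- 1/2 ∑ 1/(π² n²) = - 1/12`. -/
def S_FEJ : Prop := ∀ (L : ℕ) (t : ℝ), 1 ≤ L →
  -(1 / 12) ≤ ∑ k ∈ Finset.Ico 1 L, (1 - (k : ℝ) / L) * Bf (k * t)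

/-- **TEL.** Proof: `2 dn t = Bf (2t) - 4 Bf t + 1/2` (with `y = dn t ∈ [0, 1/2]`: `dn (2t) = min(2y, 1-2y)`,
so `Bf (2t) = 4y² - 2y + 1/6`). So the sum telescopes:
it is `4^{-n} Bf (2^n t) - Bf t + (1/2) ∑_{m<n} 4^{-m-1} = 1/6 - Bf t + 4^{-n} (Bf (2^n t) - 1/6)` and
`Bf ≤ 1/6`. -/
def S_TEL : Prop := ∀ (n : ℕ) (t : ℝ),
  ∑ m ∈ Finset.range n, (1 / 4 : ℝ) ^ (m + 1) * (2 * dn (2 ^ m * t)) ≤ 1 / 6 - Bf t

/-! ### GEST, NEAR, DBL: the complex inequalities -/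

/-- **GEST.** `A = clp h z₁`, `B = clp h z₂`, `M = (max 1 |z₁| max 1 |z₂|)²`, `D = (z₁ - z₂)²`,
`S = 2 (z₁z₂ - ε)(2 + z₁ + z₂)`, `Π = (z₁z₂ - ε)² + 4ε(z₁+1)(z₂+1)`, `G = max(ρ²|D|, ρ|S|, |Π|)`,
`R = max(ρ² max(A,B)², ρAB, A²B², h²)`; then `c₁ M R ≤ G ≤ c₂ M R`, for `h ≤ ρ ≤ 1`, `h ≤ 1/1000`.
Note `A, B ∈ [h, 1]`, `min(|zᵢ|, 1) ≤ A` resp. `B`.
Upper bound: with `Mᵢ = max 1 |zᵢ|` one has `|z₁z₂| ≤ A B M₁ M₂`, `h² ≤ A B`, `2 + |z₁| + |z₂| ≤ 4 M₁M₂`, so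
`|S| ≤ 16 A B M`, `|Π| ≤ 4 A²B² M + 16 h² M`, and `|z₁ - z₂| ≤ 2 max(A,B) M₁M₂` (if `max |zᵢ| ≥ 1` then
`max(A,B) = 1`). Lower bound, by cases (wlog by the symmetry in `z₁, z₂`):
(1) `|z₁|, |z₂| > 1/8`: `R ≤ 1`, `|z₁z₂ - ε| ≥ 0.99 |z₁z₂|`, `4h²|z₁+1||z₂+1| ≤ 324 h² |z₁z₂| ≤ 20736 h² |z₁z₂|²
≤ 0.03 |z₁z₂|²`, so `|Π| ≥ 0.9 |z₁z₂|² ≥ (0.9/4096) M`.
(2) `|z₁| > 1/4`, `|z₂| ≤ 1/8`: `M = M₁²`, `M₁ ≤ 4|z₁|`, `R ≤ max(ρ,B)²`; `|D| ≥ |z₁|²/4 ≥ M/64`. If `B ≤ 20ρ`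
done by `ρ²|D|`. If `B > 20ρ ≥ 20h`, then `B = |z₂|`, `|z₁z₂ - ε| ≥ 0.99 |z₁|B`, `4h²|z₁+1||z₂+1| ≤ 22.5 h²|z₁|
≤ 0.0563 B²|z₁| ≤ 0.226 B²|z₁|²`, so `|Π| ≥ 0.7 |z₁|²B² ≥ 0.7 B² M/16`.
(3) `|z₁|, |z₂| ≤ 1/4` (so `M = 1`, `|zᵢ+1| ∈ [3/4, 5/4]`, `|2+z₁+z₂| ≥ 3/2`), `A ≥ B`.
 (3a) `A ≥ 4B`: `A = |z₁|`, `|z₂| ≤ B`, `|D| ≥ A²/2`. If `|z₂| ≥ h`: `|z₁z₂| = AB ≥ 4h²`, `|z₁z₂-ε| ≥ (3/4)AB`,
 `|S| ≥ 2AB`; if `AB ≥ 10h` then `|Π| ≥ A²B²/2`, `h² ≤ A²B²/100`; if `h/4 ≤ AB < 10h` then `ρ|S| ≥ 2h·AB ≥ h²/2`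
 and `A²B² ≤ 100h²`; if `AB < h/4` then `|Π| ≥ 2.25h² - (AB+h²)² ≥ 2h²`, `A²B² ≤ h²`. If `|z₂| < h`: `B = h`,
 `ρAB = ρAh ≤ (ρ²A² + h²)/2`, `A²B² ≤ h²/16`, `|Π| ≥ 2.25h² - (Ah+h²)² ≥ 2h²`.
 (3b) `B ≤ A < 4B`, `|z₁z₂| ≥ 2h²`: `AB ≤ 2|z₁z₂|` (if the smaller one is `< h`, then `B = h`, `AB < 4h²`),
 `|z₁z₂-ε| ≥ |z₁z₂|/2`, `|S| ≥ 1.5|z₁z₂| ≥ 0.75AB`, and `ρ²A² ≤ 4ρAB`. If `AB ≥ 20h`: `|Π| ≥ |z₁z₂|²/4 - 6.25h²
 ≥ 0.04A²B²`; if `h/4 ≤ AB < 20h`: `ρ|S| ≥ 0.18h²`, `A²B² ≤ 400h²`; if `AB < h/4`: `|Π| ≥ 2.25h²-(AB+h²)² ≥ 2h²`.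
 (3c) `B ≤ A < 4B`, `|z₁z₂| < 2h²`: `AB < 4h²`, `A² < 16h²`, `R ≤ 16h²`, `|Π| ≥ 2.25h² - 9h⁴ ≥ 2h²`. -/
def S_GEST : Prop := ∃ c₁ c₂ : ℝ, 0 < c₁ ∧ 0 < c₂ ∧ ∀ (h ρ : ℝ) (ε z₁ z₂ : ℂ), 0 < h → h ≤ 1 / 1000 →
  ‖ε‖ = h ^ 2 → h ≤ ρ → ρ ≤ 1 →
  c₁ * ((max 1 ‖z₁‖ * max 1 ‖z₂‖) ^ 2 *
    max (ρ ^ 2 * max (clp h z₁) (clp h z₂) ^ 2) (max (ρ * (clp h z₁ * clp h z₂))
      (max ((clp h z₁ * clp h z₂) ^ 2) (h ^ 2)))) ≤
    max (ρ ^ 2 * ‖(z₁ - z₂) ^ 2‖) (max (ρ * ‖2 * (z₁ * z₂ - ε) * (2 + z₁ + z₂)‖)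
      ‖(z₁ * z₂ - ε) ^ 2 + 4 * ε * (z₁ + 1) * (z₂ + 1)‖) ∧
  max (ρ ^ 2 * ‖(z₁ - z₂) ^ 2‖) (max (ρ * ‖2 * (z₁ * z₂ - ε) * (2 + z₁ + z₂)‖)
      ‖(z₁ * z₂ - ε) ^ 2 + 4 * ε * (z₁ + 1) * (z₂ + 1)‖) ≤
    c₂ * ((max 1 ‖z₁‖ * max 1 ‖z₂‖) ^ 2 *
    max (ρ ^ 2 * max (clp h z₁) (clp h z₂) ^ 2) (max (ρ * (clp h z₁ * clp h z₂))
      (max ((clp h z₁ * clp h z₂) ^ 2) (h ^ 2))))

/-- **PAIR** (the levels of the sum and the difference). -/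
def S_PAIR : Prop := ∃ c : ℝ, 0 ≤ c ∧ ∀ (h : ℝ) (ε z₁ z₂ zp zm : ℂ), 0 < h → h ≤ 1 / 1000 → ‖ε‖ = h ^ 2 →
  z₁ ≠ z₂ → (z₁ - z₂) ^ 2 * (zp + zm) = 2 * (z₁ * z₂ - ε) * (2 + z₁ + z₂) →
  (z₁ - z₂) ^ 2 * (zp * zm) = (z₁ * z₂ - ε) ^ 2 + 4 * ε * (z₁ + 1) * (z₂ + 1) →
  Near c (lev h zp) (lev h zm) |lev h z₁ - lev h z₂|
    (min (lev h z₁ + lev h z₂) (2 * -Real.log h - lev h z₁ - lev h z₂))

/-- **NEAR.** Proof. For `ρ ∈ [h, 1]`: for complex `p`, `m` one has `max(ρ², ρ|p+m|, |pm|) ≤ 2 max(|p|,ρ) max(|m|,ρ)`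
and `max(|p|,ρ) max(|m|,ρ) ≤ 2 max(ρ², ρ|p+m|, |pm|)` (if `|m| ≤ |p|/2` then `|p+m| ≥ |p|/2`; if `|p|/2 ≤ |m| ≤
|p|` and `|p| ≥ ρ` then `ρ|p| ≤ 2|pm|`). Multiply by `|D| = |z₁ - z₂|²`: `|D| max(|zp|,ρ) max(|zm|,ρ)` is `G(ρ)` of GEST up
to a factor `2`. Divide by the same at `ρ = 1`: `X = clp h zp`, `Y = clp h zm` satisfy `max(X,ρ) = max(|zp|,ρ) /
max(|zp|,1)`. So `max(X,ρ) max(Y,ρ)` is `R(ρ)/R(1)` up to a constant factor. Let `A ≥ B` (wlog) be `clp h z₁`,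
`clp h z₂`: `R(1) = A²`, `R(ρ)/A² = max(ρ², ρB/A, B², h²/A²) = max(ρ,p) max(ρ,q)`, `p = B/A`, `q = max(AB, h²/(AB))
≤ p`. Taking logarithms, `r = - log ρ ∈ [0, H]`, `H = - log h`: `|min(s,r) + min(t,r) - min(s',r) - min(t',r)| ≤ κ`
for all `r ∈ [0,H]`, where `s = lev h zp`, `t = lev h zm`, `s' = |lev h z₁ - lev h z₂| ≤ t' = min(.., ..)`, all in
`[0,H]`. Let `s ≤ t` (wlog). `r = s'`: `s ≥ s' - κ`. `r = s`: `2s ≤ s' + s + κ`, so `s ≤ s' + κ`. `r = H`: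
`|s + t - s' - t'| ≤ κ`, so `|t - t'| ≤ 2κ`. -/
def S_NEAR : Prop := S_GEST → S_PAIR

/-- **DBL** (the level of the double). `a = lev h z`, `A = clp h z`; expected size `max(A², h²/A²)`.
Proof. `N = (z²-ε)² + 4ε(z+1)²`, `D = 4(z+1)(z²-ε) ≠ 0`, `zd = N/D`. (1) `|z| > 1/4`: `A ≥ 1/4`, expected size `≥ 1/16`;
`|N| ≥ |z|⁴/2`, `|D| ≤ 21|z|³`, so `|zd| ≥ 1/168`. (2) `|z| ≤ 1/4`, `|z| ≥ 2h`: `A = |z|`, `2.25A² ≤ |D| ≤ 6.25A²`,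
`|N| ≤ (25/16)(A⁴ + 4h²)`, so `|zd| ≤ 3(A² + h²/A²)`; if `A⁴ ≥ 20h²`: `|N| ≥ A⁴/4`, `|zd| ≥ A²/25`; if `A⁴ ≤ 0.8h²`:
`|N| ≥ h²`, `|zd| ≥ h²/(6.25A²)`; in between the expected size is at most `5h`, and `clp ≥ h`. (3) `|z| < 2h`:
`A ∈ [h, 2h]`, expected size `∈ [1/4, 1]`, `|N| ≥ 2.25h² - 25h⁴ ≥ 2h²`, `|D| ≤ 25h²`, `|zd| ≥ 0.08`. In all cases
`clp h zd` is the expected size up to a constant factor. Second part: `z = -1` gives `a = 0`; `z² = ε` gives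
`|z| = h`, `a = - log h`. -/
def S_DBL : Prop := ∃ c : ℝ, 0 ≤ c ∧ (∀ (h : ℝ) (ε z zd : ℂ), 0 < h → h ≤ 1 / 1000 → ‖ε‖ = h ^ 2 →
  (z + 1) * (z ^ 2 - ε) ≠ 0 → 4 * (z + 1) * (z ^ 2 - ε) * zd = (z ^ 2 - ε) ^ 2 + 4 * ε * (z + 1) ^ 2 →
  |lev h zd - min (2 * lev h z) (2 * -Real.log h - 2 * lev h z)| ≤ c) ∧
  ∀ (h : ℝ) (ε z : ℂ), 0 < h → h ≤ 1 / 1000 → ‖ε‖ = h ^ 2 → (z + 1) * (z ^ 2 - ε) = 0 →
  min (2 * lev h z) (2 * -Real.log h - 2 * lev h z) = 0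

/-! ### KAP, KSM, ROOT, LAW, SEQ, ARC: the complex places -/

/-- **KAP** (the loss under duplication is at most twice the level). Proof. Put `x = e (1 + 3 z)`, `η = 3 e s`,
`ε = s²`, `h = |s| ≤ 1/1000`. Then `a = cA e η = - e² (3 + 9ε)`, `b = cB e η = 2 e³ (1 - 9ε)`, so `|e| ≤ sz ≤ 2|e|`;
`pG a b x = 108 e³ (1+z)(z²-ε)` and `pF a b x - e pG a b x = 81 e⁴ N`, `N = (z²-ε)² + 4ε(z+1)²` (`ring`). So
`max(|pF|, sz |pG|) ≥ (1/2) max(|pF - e pG|, |e||pG|) ≥ (1/2)|e|⁴ max(81|N|, 108|1+z||z²-ε|)`, and `max(|x|, sz) ≤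
4|e| max(|z|,1)`. It remains to see that `max(|N|, |1+z||z²-ε|) ≥ c A² max(1,|z|)⁴`, `A = clp h z`: if `|z| ≤ 1/4`,
`|z| ≥ 2h`: `|1+z||z²-ε| ≥ (3/4)(3/4)A²`; if `|z| < 2h`: `|N| ≥ 2h² ≥ A²/2`; if `|z| > 1/4`: `|N| ≥ |z|⁴/2`
(`|z²-ε|² ≥ 0.9|z|⁴`, `4h²|z+1|² ≤ 100h²|z|² ≤ 1600h²|z|⁴`). -/
def S_KAP : Prop := ∃ C : ℝ, 0 ≤ C ∧ ∀ (e η x : ℂ), e ≠ 0 → η ≠ 0 → ‖η / (3 * e)‖ ≤ 1 / 1000 →
  kap cab (cA e η) (cB e η) x ≤ 2 * lev ‖η / (3 * e)‖ ((x - e) / (3 * e)) + C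

/-- **KSM** (the crude bound). Proof: `Y733.LS.res_arch` (see its use in `Q19.SU.dup_stepW`) gives
`kap ≤ log (1000 sz⁶ / |4 dl|)`, and `sz⁶ = max(|a|³, |b|²)` with `|a|³/|dl| = |j|/6912`, `|b|²/|dl| = |j - 1728|/46656`
(`w_jj`, `w_jj_sub`). -/
def S_KSM : Prop := ∃ C : ℝ, 0 ≤ C ∧ ∀ (a b x : ℂ), a ≠ 0 → b ≠ 0 → dl a b ≠ 0 →
  kap cab a b x ≤ Real.log (max ‖jj a b‖ 1) + C

/-- **ROOT** (a large invariant: two of the three roots are close). Proof. Let `e₁, e₂, e₃` be the roots (sum `0`) of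
`X³ + aX + b`, labelled so that `|e₂ - e₃|` is minimal among the three differences; `e = - e₁/2`, `η = (e₂ - e₃)/2`. Then
`e₂, e₃ = e ± η`, `a = cA e η`, `b = cB e η`. `3e ± η` are, up to sign, `e₁ - e₃`, `e₁ - e₂`, of absolute value
`≥ 2|η|`, so by the parallelogram law `|3e|² + |η|² ≥ 4|η|²`: `|ε| ≤ 1/3`, `ε = (η/3e)²` (and `e ≠ 0`, since `dl ≠ 0`).
`j = 6912a³/dl = 64 (1+3ε)³ / (ε (1-ε)²)` (`field_simp; ring`), so `|j| ≤ 64·8·(9/4)/|ε|`: `|ε| ≤ 1152/|j| ≤ 10⁻⁶` if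
`|j| ≥ J₀`; then `30/|ε| ≤ |j| ≤ 1152/|ε|`. -/
def S_ROOT : Prop := ∃ J₀ c : ℝ, 1 ≤ J₀ ∧ 0 ≤ c ∧ ∀ (a b : ℂ), dl a b ≠ 0 → J₀ ≤ ‖jj a b‖ →
  ∃ e η : ℂ, e ≠ 0 ∧ η ≠ 0 ∧ a = cA e η ∧ b = cB e η ∧ ‖η / (3 * e)‖ ≤ 1 / 1000 ∧
    |Real.log ‖jj a b‖ + 2 * Real.log ‖η / (3 * e)‖| ≤ c

/-- **LAW** (levels of the points of the curve). Proof. Pure algebra and S_PAIR, S_DBL. Let `ε = (η/(3e))²`,
`h = ‖η/(3e)‖`, `D` the discriminant condition (`Disc (cA e η) (cB e η)`: `4a³+27b² = -(2η(3e-η)(3e+η))²`, nonzero as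
`|η| < |3e|`, `η ≠ 0`). Cases: `P = 0` or `Q = 0`: both sides are equal (`lev ∈ [0, H]`, `H = - log h`). `P = (x₁,y₁)`,
`Q = (x₂,y₂)`, `x₁ ≠ x₂`: by `H901R3.MS.add_ne` the first coordinates `x₃, x₄` of `Q + P`, `Q - P` satisfy, with
`zᵢ = (xᵢ-e)/(3e)`, `(z₁-z₂)²(z₃+z₄) = 2(z₁z₂-ε)(2+z₁+z₂)` and `(z₁-z₂)² z₃z₄ = (z₁z₂-ε)² + 4ε(z₁+1)(z₂+1)` (the same
identities are used in the proof of `Y673.Loc.LV.pair`; `pair_lt` has them in the form `(xx'+δ)² + 4δ(x+x'+1)`).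
`x₁ = x₂`: then `Q = P` or `Q = -P`, one of `Q ± P` is `0` (level `0 = |a - a|`), the other is `± 2P`: the second part,
`a = b`. Doubling: `y = 0` iff `(z+1)(z²-ε) = 0` (`y² = 27e³(z+1)(z²-ε)`), then `2P = 0`; otherwise
`4(z+1)(z²-ε) zd = (z²-ε)² + 4ε(z+1)²` (`add_dbl`). -/
def S_LAW : Prop := S_PAIR → S_DBL → ∃ c : ℝ, 0 ≤ c ∧ ∀ [DecidableEq ℂ] (e η : ℂ), e ≠ 0 → η ≠ 0 →
  ‖η / (3 * e)‖ ≤ 1 / 1000 →
  (∀ P : Pt (cA e η) (cB e η), 0 ≤ Lev e η P ∧ Lev e η P ≤ -Real.log ‖η / (3 * e)‖) ∧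
  (∀ P Q : Pt (cA e η) (cB e η), Near c (Lev e η (Q + P)) (Lev e η (Q - P)) |Lev e η P - Lev e η Q|
    (min (Lev e η P + Lev e η Q) (2 * -Real.log ‖η / (3 * e)‖ - Lev e η P - Lev e η Q))) ∧
  ∀ P : Pt (cA e η) (cB e η),
    |Lev e η (2 • P) - min (2 * Lev e η P) (2 * -Real.log ‖η / (3 * e)‖ - 2 * Lev e η P)| ≤ c

/-- **SEQ** (levels of the multiples, an abstract lemma). Proof. `D t = 2H dn(t/(2H)) ∈ [0,H]` is the distance to `2Hℤ`;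
let `a = f P`, so `D a = a` (as `0 ≤ a ≤ H`). For all `k`: `{D((k+1)a), D((k-1)a)}` is exactly `{|D(ka) - a|,
min(D(ka)+a, 2H-D(ka)-a)}` (in one of the two orders). (1) `|f (k • P) - D (k a)| ≤ c 3^k` by induction on `k` (two
steps): let `E_k` be the error. The law for `(P, k • P)` says `{f((k+1)P), f((k-1)P)}` is `{p, q}` up to `c`,
`p = |s - a|`, `q = min(s+a, 2H-s-a)`, `s = f(kP)`; `p, q` are within `E_k` of the exact `p₀, q₀`. If the orders agree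
the new error is `≤ c + E_k`. If not (`f((k-1)P) ≈ p`, `D((k-1)a) = q₀`, `f((k+1)P) ≈ q`, `D((k+1)a) = p₀`):
`|q₀ - p₀| ≤ E_{k-1} + c + E_k`, so the new error is `≤ c + E_k + E_{k-1} + c + E_k = 2E_k + E_{k-1} + 2c`; and
`E_0 = E_1 = 0`, `2·3^k c + 3^{k-1} c + 2c ≤ 3^{k+1} c` for `k ≥ 1`. (2) doubling: `s ↦ min(2s, 2H-2s)` is `2`-Lipschitz
and `D(2t) = min(2D t, 2H - 2D t)`; so the error at `2^{m+1} k` is `≤ 2 (error at 2^m k) + c`, hence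
`≤ 2^m (c 3^k + c) ≤ 2 c 3^k 2^m`. -/
def S_SEQ : Prop := ∀ (G : Type) [AddCommGroup G] (f : G → ℝ) (c H : ℝ), 0 ≤ c → 0 < H → f 0 = 0 →
  (∀ P, 0 ≤ f P ∧ f P ≤ H) →
  (∀ P Q, Near c (f (Q + P)) (f (Q - P)) |f P - f Q| (min (f P + f Q) (2 * H - f P - f Q))) →
  (∀ P, |f (2 • P) - min (2 * f P) (2 * H - 2 * f P)| ≤ c) →
  ∀ (P : G) (k m : ℕ), |f ((2 ^ m * k) • P) - 2 * H * dn (2 ^ m * k * (f P / (2 * H)))| ≤
    2 * c * 3 ^ k * 2 ^ m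

/-- **ARC** (the loss at the multiples of a point, at a complex place). Proof. `W = log max(|j|, 1)`. If `|j| < J₀`: KSM
gives `kap ≤ log J₀ + C`, take `θ = 0` (`dn 0 = 0`). If `|j| ≥ J₀`: ROOT gives `e, η` with `a = cA e η`, `b = cB e η`
(`subst`), `θ = Lev e η P / (2H)`, `H = - log ‖η/(3e)‖`; KAP for the point `(2^m k) • P = some x y`, then SEQ with
`f = Lev e η`: `kap ≤ 2 Lev + C ≤ 2·2H dn(2^m k θ) + 4c 3^k 2^m + C`, and `|W - 2H| ≤ c'`, `dn ≤ 1/2`. -/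
def S_ARC : Prop := S_KAP → S_KSM → S_ROOT → S_PAIR → S_DBL → S_LAW → S_SEQ →
  ∃ C : ℝ, 0 ≤ C ∧ ∀ [DecidableEq ℂ] (a b : ℂ), a ≠ 0 → b ≠ 0 → dl a b ≠ 0 → ∀ P : Pt a b,
  ∃ θ : ℝ, ∀ (k m : ℕ) (x y : ℂ) (hn : (CV a b).toAffine.Nonsingular x y),
    (2 ^ m * k) • P = Affine.Point.some x y hn →
    kap cab a b x ≤ 2 * Real.log (max ‖jj a b‖ 1) * dn (2 ^ m * k * θ) + C * 3 ^ k * 2 ^ m

/-! ### KFN, FIN: the finite places -/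

/-- **KFN** (the loss at a pole of the invariant, all residue characteristics). Proof. `w = adv L v`, `c = w 2`,
`δ = (η/(3e))²`, `w δ = 2H + 6c` (`Dat`), `|.| = fv v`, `- log |x| = w(x) log N v` (`Y673.Cnt.fv_adv`: `fv v x = (Nv v)^(-w x)`).
With `x = e(1+3z)`: `pG = 108e³(1+z)(z²-δ)`, `pF - e pG = 81e⁴N`, `N = (z²-δ)² + 4δ(z+1)²`; `sz ≥ |b|^{1/3} ≥ |2||e|`
(`b = 2e³(1-9δ)`), `sz ≤ |e|`, `|x| ≤ |e| max(1,|z|)`. So `max(|pF|, sz|pG|) ≥ |2| max(|81e⁴N|, |108e⁴(1+z)(z²-δ)|)`. By the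
level `a` of the point (definition of `NN`): `a = 0`: `w z ≤ 2c`; if `w z ≤ 0` then `|N| = max(1,|z|)⁴` (`z⁴` dominates);
if `0 < w z ≤ 2c` then `|(1+z)(z²-δ)| = |z|² ≥ |2|⁴`. `0 < a < H`: `w z = a + 2c`, `|(1+z)(z²-δ)| = |z|²`,
`- log |z|² = 2a log Nv + 4c log Nv`. `a = H`: `w z ≥ H + 2c`, `w((z²-δ)²) ≥ 4H + 8c > w(4δ(z+1)²) = 2H + 8c`, so
`- log |N| = (2H + 8c) log Nv`. All error terms are multiples of `- log |2|`, `- log |3|`, hence at most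
`- k log |6|` for a fixed `k` (e.g. `k = 20`). -/
def S_KFN : Prop := ∃ κ : ℕ, ∀ (L : Type) [Field L] [NumberField L] (v : Pr L) (c H : ℤ) (e η : L),
  Dt (adv L v) c H e η → ∀ (x : L) (a : ℤ), NN (adv L v) c H ((x - e) / (3 * e)) a →
  kap (fv v) (cA e η) (cB e η) x ≤ 2 * a * Real.log (Nv v) - κ * Real.log (fv v 6)

/-- **FIN** (the loss at the multiples of a point, at a finite place at which `j` has a pole). The field contains the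
roots of the cubic (the points of order two). Proof. `Y673.Loc.root_data` with `k = w(jr e₁ e₂ e₃) < 0` (`jr e₁ e₂ e₃ =
jj a b`, see the computation `hjL` in `N495.TS.no_line_n`) gives `e, η, H` with `Dt (adv L v) c H e η`, `c = adv 2`,
`2H = -k`, `a = cA e η`, `b = cB e η` (`subst`). Let `α` be the level of `P`. If `α = 0` all multiples have level `0`
(`Q19.SU.T0`), `θ = 0`. If `α > 0`: `LV.mult` gives the level `s` of `n • P` with `RR H (n α) s`, i.e. `s = 2H dn(n α/(2H))`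
(a small lemma: `s ∈ [0, H]` and `2H ∣ nα ∓ s`), `θ = α/(2H)`. KFN: `kap ≤ 2 s log Nv - κ log |6|`, and
`2H log Nv = log (fv v (jj a b))`, which is `log max(|j|, 1)`. -/
def S_FIN : Prop := S_KFN → ∃ κ : ℕ, ∀ (L : Type) [Field L] [NumberField L] [DecidableEq L] (v : Pr L)
  (a b e₁ e₂ e₃ : L), e₁ + e₂ + e₃ = 0 → a = e₁ * e₂ + e₁ * e₃ + e₂ * e₃ → b = -(e₁ * e₂ * e₃) →
  a ≠ 0 → b ≠ 0 → dl a b ≠ 0 → 1 < fv v (jj a b) → ∀ P : Pt a b,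
  ∃ θ : ℝ, ∀ (n : ℕ) (x y : L) (hn : (CV a b).toAffine.Nonsingular x y),
    n • P = Affine.Point.some x y hn →
    kap (fv v) a b x ≤ 2 * Real.log (max (fv v (jj a b)) 1) * dn (n * θ) - κ * Real.log (fv v 6)

/-- **KNA** (the crude bound at the finite places). Proof: `Y733.LS.res_na` (see `Q19.SU.dup_stepW`) gives
`kap ≤ log (sz⁶ / |4 dl|)`, and then as in `Q19.SU.loss_sumW`: `sz⁶/|4dl| ≤ max(|j|,1)/|4·6912·46656|`; the number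
`4·6912·46656` divides `6 ^ 40`, say. -/
def S_KNA : Prop := ∃ κ : ℕ, ∀ (L : Type) [Field L] [NumberField L] (v : Pr L) (a b x : L), a ≠ 0 → b ≠ 0 →
  dl a b ≠ 0 → kap (fv v) a b x ≤ Real.log (max (fv v (jj a b)) 1) - κ * Real.log (fv v 6)

/-! ### LVL: levels in stable cyclic groups -/

/-- **LVL.** `L / K` Galois, `w` a place of `L` with `w(2) = 0`, `v = w|K`; the curve is defined over `K`, `2H = n |I|`, `I` the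
inertia group at `w` (`n` the order of the pole of `j` at `v`). `P` a point of order `p ^ t`, whose cyclic group is stable,
`1 ≤ i ≤ t`, `s = t - 2i + 2 ≥ 1`, `p ^ s ∤ n`, and (`i = 1` or `s ≥ 2`). Then `p ^ (t-i) P`, of order `p ^ i`, has level
zero. Proof. Every `σ ∈ I` fixes `e`: `σ` preserves `adv L w` (`inertia_In`); `-2e' = σ(-2e)` is a root of the same cubic,
so `e' = e` or `2e' + e = ± η`; in the second case `η' = σ η` satisfies `η'² = - 3e'² - a = (3e ± η)²/4`, so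
`w(2η') = w(3e ± η) = w(3e)`, but `w(η') = w(η) > w(3e)` (`w(η/(3e)) = H ≥ 1`, `c = 0`); contradiction. Let `α` be the level
of `P` (`LV.total`). If `α = 0` then all multiples have level `0` (`T0`). Suppose that `p^(t-i) P` has level `≠ 0`, so
`2H ∤ p^(t-i) α`; `2H ∣ p^t α` (`LV.tors`). Let `p^c` be the order of `α` in `ℤ/2H`: `t - i + 1 ≤ c ≤ t`. For `σ ∈ I`,
`σ P = m P`, which has level `α` (`lv_ac'`) and also the level `s` with `RR H (|m| α) s` (`LV.mult`, `LV.neg`), so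
`m α ≡ ± α` mod `2H` and `m ≡ ± 1` mod `p^c`. Put `P' = p^(t-c) P`, of order `p^c`: `σ P' = ± P'`, so the first coordinate
`x'` of `P'` is fixed by `I`, and so is `z' = (x'-e)/(3e)`. The level `α'` of `P'` is `≡ ± p^(t-c) α`, of order
`p^(2c-t)` mod `2H` (`2c - t ≥ s ≥ 1`), so `α' > 0`. If `α' < H`: `w(z') = α'` is divisible by `|I|` (`fix_dvd` with
`J = I`), `α' = |I| a'`, so `n ∣ p^(2c-t) a'`, `n ∤ p^(2c-t-1) a'`, hence `p^(2c-t) ∣ n` and `p^s ∣ n`: contradiction. If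
`α' = H` then `p = 2`, `2c - t = 1`, so `s = 1`, `i = 1`, hence `c = t = 1`, `P' = P = (x', 0)` has order two and
`x' = e ± η` (not `-2e`, which has level `0`: `z = -1`), `w(z') = w(η/(3e)) = H` exactly (`Dat.del`), divisible by `|I|`,
`2H = n |I|`, so `2 ∣ n`: contradiction. -/
def S_LVL : Prop := ∀ (K L : Type) [Field K] [NumberField K] [Field L] [NumberField L] [Algebra K L]
  [DecidableEq L] [IsGalois K L] (w : HeightOneSpectrum (𝓞 L)) (H : ℤ) (e η : L), Dt (adv L w) 0 H e η →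
  ∀ (A B : K), algebraMap K L A = cA e η → algebraMap K L B = cB e η →
  ∀ (n p t i : ℕ), 2 * H = n * Nat.card (w.asIdeal.inertia (L ≃ₐ[K] L)) → p.Prime → 1 ≤ i → i ≤ t →
  2 * i ≤ t + 1 → (i = 1 ∨ 2 * i ≤ t) → ¬ p ^ (t + 2 - 2 * i) ∣ n →
  ∀ P : Pt (cA e η) (cB e η), p ^ t • P = 0 → p ^ (t - 1) • P ≠ 0 →
  (∀ (σ : L ≃ₐ[K] L) (ha : rh σ (cA e η) = cA e η) (hb : rh σ (cB e η) = cB e η),
    ∃ m : ℤ, ac two_ne_zero (rh σ) ha hb P = m • P) →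
  LV (adv L w) 0 H e η (p ^ (t - i) • P) 0

end Pool.Agent.P8H9.TQ
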