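import Mathlib
import Pool.Agent.P8H9.TQ.Stm

/-!
# The heights of the multiples of a point: exact telescoping (helper9)
-/

set_option autoImplicit false
set_option linter.unusedSectionVars false

namespace Pool.Agent.P8H9.TQ

open WeierstrassCurve NumberField IsDedekindDomain Pool.Agent.H901R3.MS Pool.Agent.Y673.Loc
open Pool.Agent.Y673.Loc.ZV Pool.Agent.W275.FM Pool.Agent.W275.FMK Pool.Agent.Y673.FM
open Pool.Agent.H691R3 Pool.Agent.W223.AK Pool.Agent.Y733.LS Pool.Agent.TH942
open Pool.Agent.Q19.SU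

section
variable {K : Type} [Field K] [NumberField K] [DecidableEq K]

/-- sums of sums over all places -/
theorem Sm_sum {ι : Type} (s : Finset ι) (f : ι → InfinitePlace K → ℝ) (g : ι → Pr K → ℝ)
    (h : ∀ i ∈ s, (Function.support (g i)).Finite) :
    Sm (fun w => ∑ i ∈ s, f i w) (fun v => ∑ i ∈ s, g i v) = ∑ i ∈ s, Sm (f i) (g i) := by
  classical
  induction s using Finset.induction_on with
  | empty =>
    simp only [Finset.sum_empty]
    unfold Sm
    simp
  | insert i s hi ih =>
    have h1 : (Function.support (g i)).Finite := h i (Finset.mem_insert_self _ _)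
    have h2 : ∀ j ∈ s, (Function.support (g j)).Finite := fun j hj =>
      h j (Finset.mem_insert_of_mem hj)
    have h3 : (Function.support fun v => ∑ j ∈ s, g j v).Finite := by
      refine (s.finite_toSet.biUnion (fun j hj => h2 j hj)).subset ?_
      intro v hv
      rw [Function.mem_support] at hv
      obtain ⟨j, hj, hj'⟩ := Finset.exists_ne_zero_of_sum_ne_zero hv
      exact Set.mem_biUnion (Finset.mem_coe.2 hj) hj'
    simp only [Finset.sum_insert hi]
    rw [Sm_add h1 h3, ih h2]

theorem supp_sum {ι : Type} (s : Finset ι) (g : ι → Pr K → ℝ)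
    (h : ∀ i ∈ s, (Function.support (g i)).Finite) :
    (Function.support fun v => ∑ j ∈ s, g j v).Finite := by
  classical
  refine (s.finite_toSet.biUnion (fun j hj => h j hj)).subset ?_
  intro v hv
  rw [Function.mem_support] at hv
  obtain ⟨j, hj, hj'⟩ := Finset.exists_ne_zero_of_sum_ne_zero hv
  exact Set.mem_biUnion (Finset.mem_coe.2 hj) hj'

/-- the naive height of a point -/
noncomputable def FH {a b : K} (Q : Pt a b) : ℝ :=
  match Q with
  | Affine.Point.zero => 0
  | Affine.Point.some x _ _ => Sa (Lam a b x)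

/-- the local loss -/
noncomputable def KW (w : AbsoluteValue K ℝ) {a b : K} (Q : Pt a b) : ℝ :=
  match Q with
  | Affine.Point.zero => 0
  | Affine.Point.some x _ _ => kap w a b x

theorem FH_zero {a b : K} : FH (0 : Pt a b) = 0 := rfl
theorem KW_zero (w : AbsoluteValue K ℝ) {a b : K} : KW w (0 : Pt a b) = 0 := rfl

theorem FH_some {a b x y : K} (h : (CV a b).toAffine.Nonsingular x y) :
    FH (Affine.Point.some x y h : Pt a b) = Sa (Lam a b x) := rfl
theorem KW_some (w : AbsoluteValue K ℝ) {a b x y : K} (h : (CV a b).toAffine.Nonsingular x y) :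
    KW w (Affine.Point.some x y h : Pt a b) = kap w a b x := rfl

theorem pF_ne {a b x : K} (hD : dl a b ≠ 0) (hG : pG a b x = 0) : pF a b x ≠ 0 := by
  intro hF
  have h := res1 a b x
  rw [hF, hG] at h
  simp only [mul_zero, sub_zero] at h
  apply hD
  have h4 : (4 : K) ≠ 0 := by norm_num
  have h3 : (4 : K) * dl a b = 0 := h.symm
  exact (mul_eq_zero.1 h3).resolve_left h4

/-- the second term of the loss -/
theorem Fs_den {a b : K} (ha : a ≠ 0) (hb : b ≠ 0) (hD : dl a b ≠ 0) (x : K) :
    (Function.support fun v : Pr K =>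
      Real.log (max (fv v (pF a b x)) (sz (fv v) a b * fv v (pG a b x)))).Finite ∧
    Sa (fun w => Real.log (max (w (pF a b x)) (sz w a b * w (pG a b x)))) =
      if pG a b x = 0 then 0 else Sa (Lam a b (pF a b x / pG a b x)) := by
  by_cases hG : pG a b x = 0
  · have hF := pF_ne hD hG
    have e : ∀ w : AbsoluteValue K ℝ, Real.log (max (w (pF a b x)) (sz w a b * w (pG a b x))) =
        Real.log (w (pF a b x)) := by
      intro w
      rw [hG, map_zero, mul_zero, max_eq_left (w.nonneg _)]
    constructor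
    · have h1 : (Function.support fun v : Pr K => Real.log (fv v (pF a b x))).Finite := Fs_log hF
      simpa only [e] using h1
    · rw [if_pos hG]
      simp only [e]
      exact Sa_log hF
  · have e : ∀ w : AbsoluteValue K ℝ, Real.log (max (w (pF a b x)) (sz w a b * w (pG a b x))) =
        Lam a b (pF a b x / pG a b x) w + Real.log (w (pG a b x)) := by
      intro w
      rw [← ptw ha hG]
      rfl
    have h1 : (Function.support fun v : Pr K => Lam a b (pF a b x / pG a b x) (fv v)).Finite :=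
      Fs_Lam ha hb _
    have h2 : (Function.support fun v : Pr K => Real.log (fv v (pG a b x))).Finite := Fs_log hG
    constructor
    · simp only [e]
      exact supp_add h1 h2
    · rw [if_neg hG]
      have h3 := Sm_add (f := fun w : InfinitePlace K => Lam a b (pF a b x / pG a b x) w.1)
        (f' := fun w : InfinitePlace K => Real.log (w.1 (pG a b x))) h1 h2
      unfold Sa
      simp only [e]
      rw [h3]
      have h4 := Sa_log hG
      unfold Sa at h4
      rw [h4, add_zero]

theorem Fs_kap {a b : K} (ha : a ≠ 0) (hb : b ≠ 0) (hD : dl a b ≠ 0) (x : K) :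
    (Function.support fun v : Pr K => kap (fv v) a b x).Finite := by
  have h1 : (Function.support fun v : Pr K => Lam a b x (fv v)).Finite := Fs_Lam ha hb x
  exact supp_sub (supp_mul 4 h1) (Fs_den ha hb hD x).1

theorem Fs_KW {a b : K} (ha : a ≠ 0) (hb : b ≠ 0) (hD : dl a b ≠ 0) (Q : Pt a b) :
    (Function.support fun v : Pr K => KW (fv v) Q).Finite := by
  rcases Q with _ | ⟨x, y, h⟩
  · have : (fun v : Pr K => KW (fv v) (Affine.Point.zero : Pt a b)) = fun _ => 0 := rfl
    rw [this]
    simp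
  · exact Fs_kap ha hb hD x

/-- **one duplication** -/
theorem step {a b : K} (ha : a ≠ 0) (hb : b ≠ 0) (hD : dl a b ≠ 0) (Q : Pt a b) :
    4 * FH Q = FH (2 • Q) + Sa (fun w => KW w Q) := by
  rcases Q with _ | ⟨x, y, h⟩
  · have e1 : (2 : ℕ) • (Affine.Point.zero : Pt a b) = 0 := smul_zero 2
    rw [e1, FH_zero]
    have e2 : FH (Affine.Point.zero : Pt a b) = 0 := rfl
    have e3 : Sa (fun w => KW w (Affine.Point.zero : Pt a b)) = 0 := by
      have : (fun w : AbsoluteValue K ℝ => KW w (Affine.Point.zero : Pt a b)) = fun _ => 0 := rfl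
      rw [this]
      unfold Sa Sm
      simp
    rw [e2, e3]
    ring
  · have h1 : (Function.support fun v : Pr K => Lam a b x (fv v)).Finite := Fs_Lam ha hb x
    have h2 := Fs_den ha hb hD x
    have e1 : Sa (fun w => KW w (Affine.Point.some x y h : Pt a b)) =
        4 * Sa (Lam a b x) -
          Sa (fun w => Real.log (max (w (pF a b x)) (sz w a b * w (pG a b x)))) := by
      unfold Sa
      rw [← Sm_mul, ← Sm_sub (supp_mul 4 h1) h2.1]
      rfl
    rw [e1, h2.2, FH_some]
    by_cases hy : y = 0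
    · have hG : pG a b x = 0 := by
        have he : y ^ 2 = x ^ 3 + a * x + b := eqn_of h
        unfold pG
        rw [← he, hy]
        ring
      rw [if_pos hG]
      have e2 : (2 : ℕ) • (Affine.Point.some x y h : Pt a b) = 0 := dup_zero h hy
      rw [e2, FH_zero]
      ring
    · obtain ⟨hG, y', h', e⟩ := dup_some h hy
      rw [if_neg hG]
      have e2 : FH ((2 : ℕ) • (Affine.Point.some x y h : Pt a b)) =
          Sa (Lam a b (pF a b x / pG a b x)) := by
        have e3 : (2 : ℕ) • (Affine.Point.some x y h : Pt a b) = Affine.Point.some _ y' h' := e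
        rw [e3]
        rfl
      rw [e2]
      ring

/-- **many duplications** -/
theorem chain {a b : K} (ha : a ≠ 0) (hb : b ≠ 0) (hD : dl a b ≠ 0) (Q : Pt a b) (n : ℕ) :
    FH Q = (1 / 4) ^ n * FH ((2 ^ n) • Q) +
      ∑ m ∈ Finset.range n, (1 / 4 : ℝ) ^ (m + 1) * Sa (fun w => KW w ((2 ^ m) • Q)) := by
  induction n with
  | zero => simp
  | succ n ih =>
    rw [Finset.sum_range_succ, ih]
    have h1 := step ha hb hD ((2 ^ n) • Q)
    rw [smul_smul, ← pow_succ'] at h1
    have h2 : (1 / 4 : ℝ) ^ n * FH ((2 ^ n) • Q) =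
        (1 / 4) ^ (n + 1) * (4 * FH ((2 ^ n) • Q)) := by
      rw [pow_succ]
      ring
    rw [h2, h1]
    ring

/-- the lower bound for the naive height -/
theorem FH_ge {a b : K} (ha : a ≠ 0) (hb : b ≠ 0) (hD : dl a b ≠ 0) {Q : Pt a b} (hQ : Q ≠ 0) :
    1 / 6 * (ht (jj a b) - Module.finrank ℚ K * Real.log 6912) ≤ FH Q := by
  rcases Q with _ | ⟨x, y, h⟩
  · exact absurd rfl hQ
  · have h1 := sz_sum ha hb hD
    have h2 : Sa (fun w => Real.log (sz w a b)) ≤ Sa (Lam a b x) := by
      unfold Sa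
      exact Sm_mono (Fs_sz ha hb) (Fs_Lam ha hb x)
        (fun w => Real.log_le_log (sz_pos ha) (le_max_right _ _))
        (fun v => Real.log_le_log (sz_pos ha) (le_max_right _ _))
    rw [FH_some]
    linarith

/-- **the inequality for one multiple**: place by place bounds for the weighted sums of the losses
bound the height of the invariant -/
theorem one_point {a b : K} (ha : a ≠ 0) (hb : b ≠ 0) (hD : dl a b ≠ 0) {Q : Pt a b} (hQ : Q ≠ 0)
    {q : ℕ} (hq : 0 < q) (hqQ : q • Q = 0) (f : InfinitePlace K → ℝ) (g : Pr K → ℝ)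
    (hg : (Function.support g).Finite)
    (hf : ∀ (w : InfinitePlace K) (n : ℕ),
      ∑ m ∈ Finset.range n, (1 / 4 : ℝ) ^ (m + 1) * KW w.1 ((2 ^ m) • Q) ≤ f w)
    (hg' : ∀ (v : Pr K) (n : ℕ),
      ∑ m ∈ Finset.range n, (1 / 4 : ℝ) ^ (m + 1) * KW (fv v) ((2 ^ m) • Q) ≤ g v) :
    1 / 6 * (ht (jj a b) - Module.finrank ℚ K * Real.log 6912) ≤ Sm f g := by
  -- the heights of the multiples are bounded
  obtain ⟨B, hB⟩ : ∃ B : ℝ, ∀ n : ℕ, FH (n • Q) ≤ B := by
    have hfin : (Set.range fun n : ℕ => FH (n • Q)).Finite := by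
      refine ((Finset.range q).finite_toSet.image fun n : ℕ => FH (n • Q)).subset ?_
      rintro _ ⟨n, rfl⟩
      refine ⟨n % q, Finset.mem_coe.2 (Finset.mem_range.2 (Nat.mod_lt _ hq)), ?_⟩
      have e : n • Q = (n % q) • Q := by
        conv_lhs => rw [← Nat.mod_add_div n q]
        rw [add_smul, mul_comm, mul_smul, hqQ, smul_zero, add_zero]
      show FH ((n % q) • Q) = FH (n • Q)
      rw [e]
    obtain ⟨B, hB⟩ := hfin.bddAbove
    exact ⟨B, fun n => hB ⟨n, rfl⟩⟩
  have key : ∀ n : ℕ, 1 / 6 * (ht (jj a b) - Module.finrank ℚ K * Real.log 6912) ≤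
      (1 / 4) ^ n * B + Sm f g := by
    intro n
    have h1 := FH_ge ha hb hD hQ
    rw [chain ha hb hD Q n] at h1
    have h2 : (1 / 4 : ℝ) ^ n * FH ((2 ^ n) • Q) ≤ (1 / 4) ^ n * B :=
      mul_le_mul_of_nonneg_left (hB _) (by positivity)
    have h3 : ∑ m ∈ Finset.range n, (1 / 4 : ℝ) ^ (m + 1) * Sa (fun w => KW w ((2 ^ m) • Q)) =
        Sm (fun w => ∑ m ∈ Finset.range n, (1 / 4 : ℝ) ^ (m + 1) * KW w.1 ((2 ^ m) • Q))
          (fun v => ∑ m ∈ Finset.range n, (1 / 4 : ℝ) ^ (m + 1) * KW (fv v) ((2 ^ m) • Q)) := by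
      rw [Sm_sum]
      · refine Finset.sum_congr rfl fun m _ => ?_
        exact (Sm_mul ((1 / 4 : ℝ) ^ (m + 1)) (fun w : InfinitePlace K => KW w.1 ((2 ^ m) • Q))
          (fun v : Pr K => KW (fv v) ((2 ^ m) • Q))).symm
      · intro m _
        exact supp_mul _ (Fs_KW ha hb hD _)
    have h4 : Sm (fun w => ∑ m ∈ Finset.range n, (1 / 4 : ℝ) ^ (m + 1) * KW w.1 ((2 ^ m) • Q))
          (fun v => ∑ m ∈ Finset.range n, (1 / 4 : ℝ) ^ (m + 1) * KW (fv v) ((2 ^ m) • Q)) ≤
        Sm f g := by
      refine Sm_mono ?_ hg (fun w => hf w n) (fun v => hg' v n)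
      exact supp_sum _ _ fun m _ => supp_mul _ (Fs_KW ha hb hD _)
    rw [h3] at h1
    linarith
  -- the limit
  have hlim : Filter.Tendsto (fun n : ℕ => (1 / 4 : ℝ) ^ n * B + Sm f g) Filter.atTop
      (nhds (0 * B + Sm f g)) :=
    ((tendsto_pow_atTop_nhds_zero_of_lt_one (by norm_num) (by norm_num)).mul_const B).add_const _
  have h := ge_of_tendsto' hlim key
  rwa [zero_mul, zero_add] at h

end

end Pool.Agent.P8H9.TQ
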