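import Mathlib
import Pool.Agent.P8H9.TQ.Glob

/-!
# A torsion point of large order which is nonsingular at many poles of the invariant (helper9)
-/

set_option autoImplicit false
set_option linter.unusedSectionVars false

namespace Pool.Agent.P8H9.TQ

open WeierstrassCurve NumberField IsDedekindDomain Pool.Agent.H901R3.MS Pool.Agent.Y673.Loc
open Pool.Agent.Y673.Loc.ZV Pool.Agent.W275.FM Pool.Agent.W275.FMK Pool.Agent.Y673.FM
open Pool.Agent.H691R3 Pool.Agent.W223.AK Pool.Agent.Y733.LS Pool.Agent.TH942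
open Pool.Agent.Q19.SU

/-- the conclusion of S_ARC -/
def C_ARC : Prop := ∃ C : ℝ, 0 ≤ C ∧ ∀ [DecidableEq ℂ] (a b : ℂ), a ≠ 0 → b ≠ 0 → dl a b ≠ 0 →
  ∀ P : Pt a b, ∃ θ : ℝ, ∀ (k m : ℕ) (x y : ℂ) (hn : (CV a b).toAffine.Nonsingular x y),
    (2 ^ m * k) • P = Affine.Point.some x y hn →
    kap cab a b x ≤ 2 * Real.log (max ‖jj a b‖ 1) * dn (2 ^ m * k * θ) + C * 3 ^ k * 2 ^ m

/-- the conclusion of S_FIN -/
def C_FIN : Prop := ∃ κ : ℕ, ∀ (L : Type) [Field L] [NumberField L] [DecidableEq L] (v : Pr L)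
  (a b e₁ e₂ e₃ : L), e₁ + e₂ + e₃ = 0 → a = e₁ * e₂ + e₁ * e₃ + e₂ * e₃ → b = -(e₁ * e₂ * e₃) →
  a ≠ 0 → b ≠ 0 → dl a b ≠ 0 → 1 < fv v (jj a b) → ∀ P : Pt a b,
  ∃ θ : ℝ, ∀ (n : ℕ) (x y : L) (hn : (CV a b).toAffine.Nonsingular x y),
    n • P = Affine.Point.some x y hn →
    kap (fv v) a b x ≤ 2 * Real.log (max (fv v (jj a b)) 1) * dn (n * θ) - κ * Real.log (fv v 6)

theorem dn_nonneg (t : ℝ) : 0 ≤ dn t := abs_nonneg _

section
variable {K : Type} [Field K]

/-- the loss at an infinite place is the loss over the complex numbers -/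
theorem kap_map {w : AbsoluteValue K ℝ} {φ : K →+* ℂ} (h : ∀ x, w x = ‖φ x‖) (a b x : K) :
    kap w a b x = kap cab (φ a) (φ b) (φ x) := by
  have e : ∀ z : ℂ, cab z = ‖z‖ := fun z => rfl
  unfold kap sz
  simp only [h, e]
  have e1 : pF (φ a) (φ b) (φ x) = φ (pF a b x) := by
    unfold pF
    simp only [map_add, map_sub, map_mul, map_pow, map_ofNat]
  have e2 : pG (φ a) (φ b) (φ x) = φ (pG a b x) := by
    unfold pG
    simp only [map_add, map_mul, map_pow, map_ofNat]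
  rw [e1, e2]

end

theorem geo_quarter (n : ℕ) : ∑ m ∈ Finset.range n, (1 / 4 : ℝ) ^ (m + 1) ≤ 1 := by
  have h : ∀ n : ℕ, ∑ m ∈ Finset.range n, (1 / 4 : ℝ) ^ (m + 1) = 1 / 3 * (1 - (1 / 4) ^ n) := by
    intro n
    induction n with
    | zero => simp
    | succ n ih =>
      rw [Finset.sum_range_succ, ih, pow_succ]
      ring
  rw [h]
  have : (0 : ℝ) ≤ (1 / 4) ^ n := by positivity
  linarith

theorem geo_half (n : ℕ) : ∑ m ∈ Finset.range n, (1 / 4 : ℝ) ^ (m + 1) * 2 ^ m ≤ 1 := by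
  have h : ∀ n : ℕ, ∑ m ∈ Finset.range n, (1 / 4 : ℝ) ^ (m + 1) * 2 ^ m =
      1 / 2 * (1 - (1 / 2) ^ n) := by
    intro n
    induction n with
    | zero => simp
    | succ n ih =>
      rw [Finset.sum_range_succ, ih]
      have e : (1 / 4 : ℝ) ^ (n + 1) * 2 ^ n = 1 / 4 * (1 / 2) ^ n := by
        have : (1 / 4 : ℝ) ^ n * 2 ^ n = (1 / 2) ^ n := by
          rw [← mul_pow]
          norm_num
        rw [pow_succ]
        linear_combination (1 / 4 : ℝ) * this
      rw [e, pow_succ]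
      ring
  rw [h]
  have : (0 : ℝ) ≤ (1 / 2) ^ n := by positivity
  linarith

section
variable {K : Type} [Field K] [NumberField K] [DecidableEq K]

/-- the infinite places -/
theorem inf_bound (hTEL : S_TEL) {C₁ : ℝ} (hC₁ : 0 ≤ C₁)
    (hA : ∀ [DecidableEq ℂ] (a b : ℂ), a ≠ 0 → b ≠ 0 → dl a b ≠ 0 →
      ∀ P : Pt a b, ∃ θ : ℝ, ∀ (k m : ℕ) (x y : ℂ) (hn : (CV a b).toAffine.Nonsingular x y),
        (2 ^ m * k) • P = Affine.Point.some x y hn →
        kap cab a b x ≤ 2 * Real.log (max ‖jj a b‖ 1) * dn (2 ^ m * k * θ) + C₁ * 3 ^ k * 2 ^ m)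
    {a b : K} (ha : a ≠ 0) (hb : b ≠ 0) (hD : dl a b ≠ 0) (P : Pt a b) (w : InfinitePlace K) :
    ∃ θ : ℝ, ∀ k n : ℕ,
      ∑ m ∈ Finset.range n, (1 / 4 : ℝ) ^ (m + 1) * KW w.1 ((2 ^ m) • (k • P)) ≤
        Real.log (max (w.1 (jj a b)) 1) * (1 / 6 - Bf (k * θ)) + C₁ * 3 ^ k := by
  classical
  obtain ⟨φ, hφ⟩ : ∃ φ : K →+* ℂ, φ = w.embedding := ⟨_, rfl⟩
  have hw : ∀ x, w.1 x = ‖φ x‖ := by
    intro x
    rw [hφ]
    exact (InfinitePlace.norm_embedding_eq w x).symm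
  have ha' : φ a ≠ 0 := (map_ne_zero φ).2 ha
  have hb' : φ b ≠ 0 := (map_ne_zero φ).2 hb
  have ed : dl (φ a) (φ b) = φ (dl a b) := by
    unfold dl
    simp only [map_add, map_mul, map_pow, map_ofNat]
  have hD' : dl (φ a) (φ b) ≠ 0 := by
    rw [ed]
    exact (map_ne_zero φ).2 hD
  have ej : jj (φ a) (φ b) = φ (jj a b) := by
    unfold jj
    simp only [map_div₀, map_add, map_mul, map_pow, map_ofNat]
  set T : Pt a b →+ Pt (φ a) (φ b) := tw φ 1 two_ne_zero one_ne_zero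
    (by rw [one_pow, one_mul]) (by rw [one_pow, one_mul]) with hT
  obtain ⟨θ, hθ⟩ := hA (φ a) (φ b) ha' hb' hD' (T P)
  refine ⟨θ, fun k n => ?_⟩
  set W := Real.log (max (w.1 (jj a b)) 1) with hW
  have hW0 : 0 ≤ W := Real.log_nonneg (le_max_right _ _)
  have hterm : ∀ m : ℕ, KW w.1 ((2 ^ m) • (k • P)) ≤
      W * (2 * dn (2 ^ m * (k * θ))) + C₁ * 3 ^ k * 2 ^ m := by
    intro m
    rw [smul_smul]
    rcases hQ : (2 ^ m * k) • P with _ | ⟨x, y, hn⟩
    · have e : KW w.1 (Affine.Point.zero : Pt a b) = 0 := rfl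
      rw [e]
      have := dn_nonneg (2 ^ m * (k * θ))
      positivity
    · have h1 := congrArg T hQ
      rw [map_nsmul] at h1
      have h2 : T (Affine.Point.some x y hn) = Affine.Point.some (φ x / 1 ^ 2) (φ y / 1 ^ 3)
          (tw_ns φ 1 one_ne_zero (by rw [one_pow, one_mul]) (by rw [one_pow, one_mul]) hn) := rfl
      rw [h2] at h1
      have h3 := hθ k m _ _ _ h1
      rw [KW_some, kap_map hw]
      rw [ej, ← hw, ← hW] at h3
      have e1 : φ x / 1 ^ 2 = φ x := by simp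
      rw [e1] at h3
      have e2 : (2 : ℝ) ^ m * k * θ = 2 ^ m * (k * θ) := by ring
      rw [e2] at h3
      linarith
  have h1 := hTEL n (k * θ)
  calc ∑ m ∈ Finset.range n, (1 / 4 : ℝ) ^ (m + 1) * KW w.1 ((2 ^ m) • (k • P))
      ≤ ∑ m ∈ Finset.range n, (1 / 4 : ℝ) ^ (m + 1) *
          (W * (2 * dn (2 ^ m * (k * θ))) + C₁ * 3 ^ k * 2 ^ m) :=
        Finset.sum_le_sum fun m _ => mul_le_mul_of_nonneg_left (hterm m) (by positivity)
    _ = W * ∑ m ∈ Finset.range n, (1 / 4 : ℝ) ^ (m + 1) * (2 * dn (2 ^ m * (k * θ))) +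
        C₁ * 3 ^ k * ∑ m ∈ Finset.range n, (1 / 4 : ℝ) ^ (m + 1) * 2 ^ m := by
        rw [Finset.mul_sum, Finset.mul_sum, ← Finset.sum_add_distrib]
        refine Finset.sum_congr rfl fun m _ => by ring
    _ ≤ W * (1 / 6 - Bf (k * θ)) + C₁ * 3 ^ k * 1 := by
        gcongr
        exact geo_half n
    _ = _ := by ring

/-- the finite places -/
theorem fin_bound (hTEL : S_TEL) {κ₁ κ₂ : ℕ}
    (hF : ∀ (L : Type) [Field L] [NumberField L] [DecidableEq L] (v : Pr L)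
      (a b e₁ e₂ e₃ : L), e₁ + e₂ + e₃ = 0 → a = e₁ * e₂ + e₁ * e₃ + e₂ * e₃ →
      b = -(e₁ * e₂ * e₃) → a ≠ 0 → b ≠ 0 → dl a b ≠ 0 → 1 < fv v (jj a b) → ∀ P : Pt a b,
      ∃ θ : ℝ, ∀ (n : ℕ) (x y : L) (hn : (CV a b).toAffine.Nonsingular x y),
        n • P = Affine.Point.some x y hn →
        kap (fv v) a b x ≤
          2 * Real.log (max (fv v (jj a b)) 1) * dn (n * θ) - κ₁ * Real.log (fv v 6))
    (hN : ∀ (L : Type) [Field L] [NumberField L] (v : Pr L) (a b x : L), a ≠ 0 → b ≠ 0 →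
      dl a b ≠ 0 → kap (fv v) a b x ≤ Real.log (max (fv v (jj a b)) 1) - κ₂ * Real.log (fv v 6))
    {a b e₁ e₂ e₃ : K} (hs : e₁ + e₂ + e₃ = 0) (hae : a = e₁ * e₂ + e₁ * e₃ + e₂ * e₃)
    (hbe : b = -(e₁ * e₂ * e₃))
    (ha : a ≠ 0) (hb : b ≠ 0) (hD : dl a b ≠ 0) (P : Pt a b) (v : Pr K) :
    ∃ θ : ℝ, ∀ k n : ℕ,
      ∑ m ∈ Finset.range n, (1 / 4 : ℝ) ^ (m + 1) * KW (fv v) ((2 ^ m) • (k • P)) ≤
        Real.log (max (fv v (jj a b)) 1) * (1 / 6 - Bf (k * θ)) -
          (κ₁ + κ₂) * Real.log (fv v 6) := by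
  set W := Real.log (max (fv v (jj a b)) 1) with hW
  have hW0 : 0 ≤ W := Real.log_nonneg (le_max_right _ _)
  have h6 : Real.log (fv v (6 : K)) ≤ 0 := by
    have : fv v (6 : K) ≤ 1 := (fv_Na v).ofNat 6
    exact Real.log_nonpos (apply_nonneg _ _) this
  obtain ⟨θ, hθ⟩ : ∃ θ : ℝ, ∀ k m : ℕ, KW (fv v) ((2 ^ m) • (k • P)) ≤
      W * (2 * dn (2 ^ m * (k * θ))) - (κ₁ + κ₂) * Real.log (fv v 6) := by
    rcases lt_or_ge 1 (fv v (jj a b)) with hj | hj
    · obtain ⟨θ, hθ⟩ := hF K v a b e₁ e₂ e₃ hs hae hbe ha hb hD hj P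
      refine ⟨θ, fun k m => ?_⟩
      rw [smul_smul]
      rcases hQ : (2 ^ m * k) • P with _ | ⟨x, y, hn⟩
      · have e : KW (fv v) (Affine.Point.zero : Pt a b) = 0 := rfl
        rw [e]
        have := dn_nonneg (2 ^ m * (k * θ))
        have h2 : ((κ₁ : ℝ) + κ₂) * Real.log (fv v 6) ≤ 0 :=
          mul_nonpos_of_nonneg_of_nonpos (by positivity) h6
        have h3 : 0 ≤ W * (2 * dn (2 ^ m * (k * θ))) := by positivity
        linarith
      · have h3 := hθ _ _ _ _ hQ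
        rw [KW_some]
        have e2 : ((2 ^ m * k : ℕ) : ℝ) * θ = 2 ^ m * (k * θ) := by
          push_cast
          ring
        rw [e2] at h3
        have h2 : (κ₂ : ℝ) * Real.log (fv v 6) ≤ 0 :=
          mul_nonpos_of_nonneg_of_nonpos (by positivity) h6
        linarith
    · refine ⟨0, fun k m => ?_⟩
      have hW1 : W = 0 := by
        rw [hW, max_eq_right hj, Real.log_one]
      have h2 : (κ₁ : ℝ) * Real.log (fv v 6) ≤ 0 :=
        mul_nonpos_of_nonneg_of_nonpos (by positivity) h6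
      have h2' : (κ₂ : ℝ) * Real.log (fv v 6) ≤ 0 :=
        mul_nonpos_of_nonneg_of_nonpos (by positivity) h6
      rcases hQ : (2 ^ m) • (k • P) with _ | ⟨x, y, hn⟩
      · have e : KW (fv v) (Affine.Point.zero : Pt a b) = 0 := rfl
        rw [e, hW1]
        linarith
      · have h3 := hN K v a b x ha hb hD
        rw [← hW, hW1] at h3
        rw [KW_some, hW1]
        linarith
  refine ⟨θ, fun k n => ?_⟩
  have h1 := hTEL n (k * θ)
  have h6' : 0 ≤ -(((κ₁ : ℝ) + κ₂) * Real.log (fv v 6)) := by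
    have : ((κ₁ : ℝ) + κ₂) * Real.log (fv v 6) ≤ 0 :=
      mul_nonpos_of_nonneg_of_nonpos (by positivity) h6
    linarith
  calc ∑ m ∈ Finset.range n, (1 / 4 : ℝ) ^ (m + 1) * KW (fv v) ((2 ^ m) • (k • P))
      ≤ ∑ m ∈ Finset.range n, (1 / 4 : ℝ) ^ (m + 1) *
          (W * (2 * dn (2 ^ m * (k * θ))) - (κ₁ + κ₂) * Real.log (fv v 6)) :=
        Finset.sum_le_sum fun m _ => mul_le_mul_of_nonneg_left (hθ k m) (by positivity)
    _ = W * ∑ m ∈ Finset.range n, (1 / 4 : ℝ) ^ (m + 1) * (2 * dn (2 ^ m * (k * θ))) +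
        -((κ₁ + κ₂) * Real.log (fv v 6)) * ∑ m ∈ Finset.range n, (1 / 4 : ℝ) ^ (m + 1) := by
        rw [Finset.mul_sum, Finset.mul_sum, ← Finset.sum_add_distrib]
        refine Finset.sum_congr rfl fun m _ => by ring
    _ ≤ W * (1 / 6 - Bf (k * θ)) + -((κ₁ + κ₂) * Real.log (fv v 6)) * 1 := by
        gcongr
        exact geo_quarter n
    _ = _ := by ring

/-- the places of nonsingular reduction -/
theorem good_bound {a b : K} (ha : a ≠ 0) (hb : b ≠ 0) {v : Pr K} (hv : Gw a b v) (P : Pt a b)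
    (hgood : ∀ (n : ℕ) (x y : K) (hn : (CV a b).toAffine.Nonsingular x y),
      n • P = Affine.Point.some x y hn → Good (fv v) a b x) (k n : ℕ) :
    ∑ m ∈ Finset.range n, (1 / 4 : ℝ) ^ (m + 1) * KW (fv v) ((2 ^ m) • (k • P)) ≤ 0 := by
  refine Finset.sum_nonpos fun m _ => mul_nonpos_of_nonneg_of_nonpos (by positivity) ?_
  rw [smul_smul]
  rcases hQ : (2 ^ m * k) • P with _ | ⟨x, y, hn⟩
  · exact le_of_eq rfl
  · rw [KW_some]
    have h1 := (good_step (fv_Na v) hv.two ha hb hv.ab hv.lt (hgood _ _ _ _ hQ)).1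
    have h2 : 0 < max (fv v x) (sz (fv v) a b) := lt_max_of_lt_right (sz_pos ha)
    have h3 := Real.log_le_log (by positivity) h1
    rw [Real.log_pow] at h3
    unfold kap
    push_cast at h3
    linarith

end

/-- **a torsion point of order at least `M`, nonsingular at the places of `V`** -/
theorem eps (hARC : C_ARC) (hFIN : C_FIN) (hKNA : S_KNA) (hFEJ : S_FEJ) (hTEL : S_TEL) (M : ℕ)
    (hM : 2 ≤ M) : ∃ C : ℝ, 0 ≤ C ∧ ∀ (K : Type) [Field K] [NumberField K] [DecidableEq K]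
      (a b e₁ e₂ e₃ : K), e₁ + e₂ + e₃ = 0 → a = e₁ * e₂ + e₁ * e₃ + e₂ * e₃ →
      b = -(e₁ * e₂ * e₃) → a ≠ 0 → b ≠ 0 → dl a b ≠ 0 →
      ∀ (V : Finset (Pr K)), (∀ v ∈ V, Gw a b v) → ∀ (P : Pt a b) (q : ℕ), 0 < q → q • P = 0 →
      (∀ k : ℕ, 0 < k → k < M → k • P ≠ 0) →
      (∀ v ∈ V, ∀ (n : ℕ) (x y : K) (hn : (CV a b).toAffine.Nonsingular x y),
        n • P = Affine.Point.some x y hn → Good (fv v) a b x) →
      ∑ v ∈ V, Real.log (fv v (jj a b)) ≤ 1 / M * ht (jj a b) + Module.finrank ℚ K * C := by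
  classical
  obtain ⟨C₁, hC₁, hA⟩ := hARC
  obtain ⟨κ₁, hF⟩ := hFIN
  obtain ⟨κ₂, hN⟩ := hKNA
  have hMR : (0 : ℝ) < M := by
    have : 0 < M := by omega
    exact_mod_cast this
  have hl6 : 0 ≤ Real.log 6 := Real.log_nonneg (by norm_num)
  have hl6912 : 0 ≤ Real.log 6912 := Real.log_nonneg (by norm_num)
  refine ⟨12 / M * (M * (C₁ * 3 ^ M) + M * ((κ₁ + κ₂) * Real.log 6) + M * Real.log 6912),
    by positivity, ?_⟩
  intro K _ _ _ a b e₁ e₂ e₃ hs hae hbe ha hb hD V hV P q hq hqP hk hgood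
  choose θi hθi using fun w : InfinitePlace K => inf_bound hTEL hC₁ hA ha hb hD P w
  choose θf hθf using fun v : Pr K => fin_bound hTEL hF hN hs hae hbe ha hb hD P v
  set j := jj a b with hj
  set d : ℝ := (Module.finrank ℚ K : ℝ) with hd
  have hd0 : 0 ≤ d := Nat.cast_nonneg _
  have hj0 : j ≠ 0 := by
    rw [hj]
    unfold jj
    exact div_ne_zero (mul_ne_zero (by norm_num) (pow_ne_zero 3 ha)) hD
  have h6 : ∀ v : Pr K, Real.log (fv v (6 : K)) ≤ 0 := by
    intro v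
    have : fv v (6 : K) ≤ 1 := (fv_Na v).ofNat 6
    exact Real.log_nonpos (apply_nonneg _ _) this
  have hsup6 : (Function.support fun v : Pr K => Real.log (fv v (6 : K))).Finite :=
    Fs_log (K := K) (z := (6 : K)) (by norm_num)
  have hsupW : (Function.support fun v : Pr K => Real.log (max (fv v j) 1)).Finite := Fs_ht j
  -- the bounds for one multiple
  set f : ℕ → InfinitePlace K → ℝ := fun k w =>
    Real.log (max (w.1 j) 1) * (1 / 6 - Bf (k * θi w)) + C₁ * 3 ^ k with hf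
  set g : ℕ → Pr K → ℝ := fun k v =>
    (if v ∈ V then 0 else Real.log (max (fv v j) 1) * (1 / 6 - Bf (k * θf v))) -
      (κ₁ + κ₂) * Real.log (fv v 6) with hg
  have hgs : ∀ k, (Function.support (g k)).Finite := by
    intro k
    refine supp_sub ?_ (supp_mul _ hsup6)
    refine hsupW.subset fun v hv => ?_
    rw [Function.mem_support] at hv ⊢
    intro h0
    apply hv
    split_ifs
    · rfl
    · rw [h0, zero_mul]
  have hone : ∀ k ∈ Finset.Ico 1 M, 1 / 6 * (ht j - d * Real.log 6912) ≤ Sm (f k) (g k) := by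
    intro k hkM
    rw [Finset.mem_Ico] at hkM
    refine one_point ha hb hD (hk k (by omega) hkM.2) hq (by
      rw [smul_smul, mul_comm, mul_smul, hqP, smul_zero]) (f k) (g k) (hgs k)
      (fun w n => hθi w k n) ?_
    intro v n
    rw [hg]
    dsimp only
    split_ifs with hv
    · have h1 := good_bound ha hb (hV v hv) P (hgood v hv) k n
      have h2 : ((κ₁ : ℝ) + κ₂) * Real.log (fv v 6) ≤ 0 :=
        mul_nonpos_of_nonneg_of_nonpos (by positivity) (h6 v)
      linarith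
    · exact hθf v k n
  -- the weighted sum
  have hc : ∀ k ∈ Finset.Ico 1 M, 0 ≤ 1 - (k : ℝ) / M := by
    intro k hkM
    rw [Finset.mem_Ico] at hkM
    rw [sub_nonneg, div_le_one hMR]
    exact_mod_cast hkM.2.le
  have hsumc : ∑ k ∈ Finset.Ico 1 M, (1 - (k : ℝ) / M) = ((M : ℝ) - 1) / 2 := by
    have h1 : ∀ N : ℕ, 1 ≤ N → ∑ k ∈ Finset.Ico 1 N, (k : ℝ) = N * (N - 1) / 2 := by
      intro N hN1
      induction N, hN1 using Nat.le_induction with
      | base => simp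
      | succ n hn ih =>
        rw [Finset.sum_Ico_succ_top hn, ih]
        push_cast
        ring
    rw [Finset.sum_sub_distrib, ← Finset.sum_div, h1 M (by omega), Finset.sum_const,
      Nat.card_Ico, nsmul_eq_mul, mul_one, Nat.cast_sub (by omega)]
    field_simp
    push_cast
    ring
  have hw1 : (((M : ℝ) - 1) / 2) * (1 / 6 * (ht j - d * Real.log 6912)) ≤
      Sm (fun w => ∑ k ∈ Finset.Ico 1 M, (1 - (k : ℝ) / M) * f k w)
        (fun v => ∑ k ∈ Finset.Ico 1 M, (1 - (k : ℝ) / M) * g k v) := by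
    rw [Sm_sum (Finset.Ico 1 M) (fun k w => (1 - (k : ℝ) / M) * f k w)
      (fun k v => (1 - (k : ℝ) / M) * g k v) (fun k _ => supp_mul _ (hgs k)), ← hsumc,
      Finset.sum_mul]
    refine Finset.sum_le_sum fun k hkM => ?_
    rw [Sm_mul]
    exact mul_le_mul_of_nonneg_left (hone k hkM) (hc k hkM)
  have hB : ∀ θ : ℝ, ∑ k ∈ Finset.Ico 1 M, (1 - (k : ℝ) / M) * (1 / 6 - Bf (k * θ)) ≤ M / 12 := by
    intro θ
    have h1 := hFEJ M θ (by omega)
    have h2 : ∑ k ∈ Finset.Ico 1 M, (1 - (k : ℝ) / M) * (1 / 6 - Bf (k * θ)) =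
        1 / 6 * ∑ k ∈ Finset.Ico 1 M, (1 - (k : ℝ) / M) -
          ∑ k ∈ Finset.Ico 1 M, (1 - (k : ℝ) / M) * Bf (k * θ) := by
      rw [Finset.mul_sum, ← Finset.sum_sub_distrib]
      refine Finset.sum_congr rfl fun k _ => by ring
    rw [h2, hsumc]
    linarith
  have hsumc1 : ∑ k ∈ Finset.Ico 1 M, (1 - (k : ℝ) / M) ≤ M := by
    rw [hsumc]
    linarith
  have hw2 : Sm (fun w => ∑ k ∈ Finset.Ico 1 M, (1 - (k : ℝ) / M) * f k w)
        (fun v => ∑ k ∈ Finset.Ico 1 M, (1 - (k : ℝ) / M) * g k v) ≤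
      Sm (fun w => (M : ℝ) / 12 * (Real.log (max (w.1 j) 1) - 0) + M * (C₁ * 3 ^ M))
        (fun v => (M : ℝ) / 12 * (Real.log (max (fv v j) 1) -
          (if v ∈ V then Real.log (fv v j) else 0)) + -(M * (κ₁ + κ₂)) * Real.log (fv v 6)) := by
    refine Sm_mono (supp_sum _ _ fun k _ => supp_mul _ (hgs k))
      (supp_add (supp_mul _ (supp_sub hsupW (Fs_W V j))) (supp_mul _ hsup6)) ?_ ?_
    · intro w
      have hW0 : 0 ≤ Real.log (max (w.1 j) 1) := Real.log_nonneg (le_max_right _ _)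
      have h1 : ∑ k ∈ Finset.Ico 1 M, (1 - (k : ℝ) / M) * f k w =
          Real.log (max (w.1 j) 1) *
            ∑ k ∈ Finset.Ico 1 M, (1 - (k : ℝ) / M) * (1 / 6 - Bf (k * θi w)) +
          ∑ k ∈ Finset.Ico 1 M, (1 - (k : ℝ) / M) * (C₁ * 3 ^ k) := by
        rw [Finset.mul_sum, ← Finset.sum_add_distrib]
        refine Finset.sum_congr rfl fun k _ => ?_
        rw [hf]
        ring
      rw [h1]
      have h2 := mul_le_mul_of_nonneg_left (hB (θi w)) hW0
      have h3 : ∑ k ∈ Finset.Ico 1 M, (1 - (k : ℝ) / M) * (C₁ * 3 ^ k) ≤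
          (M : ℝ) * (C₁ * 3 ^ M) := by
        calc ∑ k ∈ Finset.Ico 1 M, (1 - (k : ℝ) / M) * (C₁ * 3 ^ k)
            ≤ ∑ k ∈ Finset.Ico 1 M, (1 - (k : ℝ) / M) * (C₁ * 3 ^ M) := by
              refine Finset.sum_le_sum fun k hkM => mul_le_mul_of_nonneg_left ?_ (hc k hkM)
              rw [Finset.mem_Ico] at hkM
              exact mul_le_mul_of_nonneg_left
                (pow_le_pow_right₀ (by norm_num) hkM.2.le) hC₁
          _ = (∑ k ∈ Finset.Ico 1 M, (1 - (k : ℝ) / M)) * (C₁ * 3 ^ M) := by rw [Finset.sum_mul]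
          _ ≤ (M : ℝ) * (C₁ * 3 ^ M) := mul_le_mul_of_nonneg_right hsumc1 (by positivity)
      rw [sub_zero]
      linarith
    · intro v
      have hW0 : 0 ≤ Real.log (max (fv v j) 1) := Real.log_nonneg (le_max_right _ _)
      have h1 : ∑ k ∈ Finset.Ico 1 M, (1 - (k : ℝ) / M) * g k v =
          ∑ k ∈ Finset.Ico 1 M, (1 - (k : ℝ) / M) *
            (if v ∈ V then 0 else Real.log (max (fv v j) 1) * (1 / 6 - Bf (k * θf v))) +
          -((κ₁ + κ₂) * Real.log (fv v 6)) * ∑ k ∈ Finset.Ico 1 M, (1 - (k : ℝ) / M) := by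
        rw [Finset.mul_sum, ← Finset.sum_add_distrib]
        refine Finset.sum_congr rfl fun k _ => ?_
        rw [hg]
        ring
      rw [h1]
      have h0 : 0 ≤ -(((κ₁ : ℝ) + κ₂) * Real.log (fv v 6)) := by
        have : ((κ₁ : ℝ) + κ₂) * Real.log (fv v 6) ≤ 0 :=
          mul_nonpos_of_nonneg_of_nonpos (by positivity) (h6 v)
        linarith
      have h2 := mul_le_mul_of_nonneg_left hsumc1 h0
      have h3 : ∑ k ∈ Finset.Ico 1 M, (1 - (k : ℝ) / M) *
            (if v ∈ V then 0 else Real.log (max (fv v j) 1) * (1 / 6 - Bf (k * θf v))) ≤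
          (M : ℝ) / 12 * (Real.log (max (fv v j) 1) -
          (if v ∈ V then Real.log (fv v j) else 0)) := by
        by_cases hv : v ∈ V
        · simp only [if_pos hv, mul_zero, Finset.sum_const_zero]
          have h4 : 1 < fv v j := (hV v hv).one_lt ha hb hD
          rw [max_eq_left h4.le, sub_self, mul_zero]
        · simp only [if_neg hv, sub_zero]
          have h4 : ∑ k ∈ Finset.Ico 1 M, (1 - (k : ℝ) / M) *
              (Real.log (max (fv v j) 1) * (1 / 6 - Bf (k * θf v))) =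
              Real.log (max (fv v j) 1) *
                ∑ k ∈ Finset.Ico 1 M, (1 - (k : ℝ) / M) * (1 / 6 - Bf (k * θf v)) := by
            rw [Finset.mul_sum]
            refine Finset.sum_congr rfl fun k _ => by ring
          rw [h4]
          have h5 := mul_le_mul_of_nonneg_left (hB (θf v)) hW0
          linarith
      linarith
  have hw3 : Sm (fun w => (M : ℝ) / 12 * (Real.log (max (w.1 j) 1) - 0) + M * (C₁ * 3 ^ M))
        (fun v => (M : ℝ) / 12 * (Real.log (max (fv v j) 1) -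
          (if v ∈ V then Real.log (fv v j) else 0)) + -(M * (κ₁ + κ₂)) * Real.log (fv v 6)) =
      (M : ℝ) / 12 * (ht j - ∑ v ∈ V, Real.log (fv v j)) + d * (M * (C₁ * 3 ^ M)) +
        M * (κ₁ + κ₂) * (d * Real.log 6) := by
    have s1 := supp_sub hsupW (Fs_W V j)
    have e1 : Sm (fun w => (M : ℝ) / 12 * (Real.log (max (w.1 j) 1) - 0) + M * (C₁ * 3 ^ M))
        (fun v => (M : ℝ) / 12 * (Real.log (max (fv v j) 1) -
          (if v ∈ V then Real.log (fv v j) else 0)) + -(M * (κ₁ + κ₂)) * Real.log (fv v 6)) =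
        Sm (fun w : InfinitePlace K => (M : ℝ) / 12 * (Real.log (max (w.1 j) 1) - 0))
          (fun v => (M : ℝ) / 12 * (Real.log (max (fv v j) 1) -
            (if v ∈ V then Real.log (fv v j) else 0))) +
        Sm (fun _ : InfinitePlace K => (M : ℝ) * (C₁ * 3 ^ M))
          (fun v => -(M * (κ₁ + κ₂)) * Real.log (fv v 6)) :=
      Sm_add (supp_mul _ s1) (supp_mul _ hsup6)
    have e2 : Sm (fun w : InfinitePlace K => (M : ℝ) / 12 * (Real.log (max (w.1 j) 1) - 0))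
          (fun v => (M : ℝ) / 12 * (Real.log (max (fv v j) 1) -
            (if v ∈ V then Real.log (fv v j) else 0))) =
        (M : ℝ) / 12 * (ht j - ∑ v ∈ V, Real.log (fv v j)) := by
      have h1 := Sm_mul ((M : ℝ) / 12) (fun w : InfinitePlace K => Real.log (max (w.1 j) 1) - 0)
        (fun v : Pr K => Real.log (max (fv v j) 1) - (if v ∈ V then Real.log (fv v j) else 0))
      have h2 := Sm_sub (f := fun w : InfinitePlace K => Real.log (max (w.1 j) 1))
        (f' := fun _ : InfinitePlace K => (0 : ℝ)) hsupW (Fs_W V j)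
      rw [h1, h2]
      congr 1
      have h3 : Sm (fun _ : InfinitePlace K => (0 : ℝ)) (fun v : Pr K =>
        if v ∈ V then Real.log (fv v j) else 0) = ∑ v ∈ V, Real.log (fv v j) := Sm_W V j
      rw [h3, ht_eq_Sa]
      rfl
    have e3 : Sm (fun _ : InfinitePlace K => (M : ℝ) * (C₁ * 3 ^ M))
          (fun v : Pr K => -(M * (κ₁ + κ₂)) * Real.log (fv v 6)) =
        d * (M * (C₁ * 3 ^ M)) + M * (κ₁ + κ₂) * (d * Real.log 6) := by
      have h5 := fin_nat (K := K) (n := 6) (by norm_num)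
      unfold Sm
      rw [← Finset.sum_mul, sum_mult, ← hd]
      have h7 : ∑ᶠ v : Pr K, -((M : ℝ) * (κ₁ + κ₂)) * Real.log (fv v 6) =
          -((M : ℝ) * (κ₁ + κ₂)) * ∑ᶠ v : Pr K, Real.log (fv v ((6 : ℕ) : K)) := by
        have h8 := smul_finsum (-((M : ℝ) * (κ₁ + κ₂)))
          (fun v : Pr K => Real.log (fv v ((6 : ℕ) : K)))
        simp only [smul_eq_mul] at h8
        rw [h8]
        push_cast
        rfl
      rw [h7, h5, ← hd]
      push_cast
      ring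
    rw [e1, e2, e3]
    ring
  have hfinal := hw1.trans (hw2.trans_eq hw3)
  set T := ∑ v ∈ V, Real.log (fv v j) with hT
  have h1 : (M : ℝ) / 12 * T ≤ 1 / 12 * ht j + d * (M * (C₁ * 3 ^ M) +
      M * ((κ₁ + κ₂) * Real.log 6) + M * Real.log 6912) := by
    have h2 : (((M : ℝ) - 1) / 2) * (1 / 6 * (d * Real.log 6912)) ≤ M * (d * Real.log 6912) := by
      have h3 : 0 ≤ d * Real.log 6912 := by positivity
      nlinarith
    nlinarith
  have h2 : T = 12 / M * ((M : ℝ) / 12 * T) := by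
    field_simp
  rw [h2]
  calc 12 / (M : ℝ) * ((M : ℝ) / 12 * T)
      ≤ 12 / M * (1 / 12 * ht j + d * (M * (C₁ * 3 ^ M) +
          M * ((κ₁ + κ₂) * Real.log 6) + M * Real.log 6912)) :=
        mul_le_mul_of_nonneg_left h1 (by positivity)
    _ = _ := by
        field_simp

end Pool.Agent.P8H9.TQ
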