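import Mathlib
import Pool.Agent.P8H9.TQ.Eps

/-!
# Stable cyclic subgroups of prime power order and the poles of the invariant (helper9; the descent follows
`N495.TS.no_line_n` of helper495, which is based on `Q19.SU.no_line` of helper19 and helper304)
-/

set_option autoImplicit false
set_option linter.unusedSectionVars false

namespace Pool.Agent.P8H9.TQ

open WeierstrassCurve NumberField IsDedekindDomain Pool.Agent.H901R3.MS Pool.Agent.Y673.Loc
open Pool.Agent.Y673.Loc.ZV Pool.Agent.W275.FM Pool.Agent.W275.FMK Pool.Agent.Y673.FM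
open Pool.Agent.H691R3 Pool.Agent.W223.AK Pool.Agent.Y733.LS Pool.Agent.TH942
open Pool.Agent.Q19.SU

section
variable {L : Type} [Field L] [NumberField L] [DecidableEq L]

/-- the multiples of a point of level zero are nonsingular -/
theorem lvl_good (hLVL : S_LVL) {K : Type} [Field K] [NumberField K] [Algebra K L] [IsGalois K L]
    (w : Pr L) {H : ℤ} {e η : L} (D : Dt (adv L w) 0 H e η) {A B : K} {a b : L}
    (hA : algebraMap K L A = a) (hB : algebraMap K L B = b) (ha : a = cA e η) (hb : b = cB e η)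
    {n p t i : ℕ} (hH : 2 * H = n * Nat.card (w.asIdeal.inertia (L ≃ₐ[K] L))) (hp : p.Prime)
    (hi1 : 1 ≤ i) (hit : i ≤ t) (h2i : 2 * i ≤ t + 1) (h2i' : i = 1 ∨ 2 * i ≤ t)
    (hpn : ¬ p ^ (t + 2 - 2 * i) ∣ n) {P : Pt a b} (hP : p ^ t • P = 0) (hP0 : p ^ (t - 1) • P ≠ 0)
    (hst : ∀ (σ : L ≃ₐ[K] L) (ha : rh σ a = a) (hb : rh σ b = b),
      ∃ m : ℤ, ac two_ne_zero (rh σ) ha hb P = m • P)
    (h2 : fv w 2 = 1) (h3 : fv w 3 = 1) (k : ℕ) (x y : L)
    (hn : (CV a b).toAffine.Nonsingular x y)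
    (hk : k • (p ^ (t - i) • P) = Affine.Point.some x y hn) : Good (fv w) a b x := by
  subst ha hb
  have h := hLVL K L w H e η D A B hA hB n p t i hH hp hi1 hit h2i h2i' hpn P hP hP0 hst
  have h4 : p ^ (t - i) • P ∈ T0 D := h
  have h5 : k • (p ^ (t - i) • P) ∈ T0 D := (T0 D).nsmul_mem h4 k
  rw [hk] at h5
  exact good_of_NN D h2 h3 h5

/-- the order of `p ^ (t - i) • P` -/
theorem mult_ne {G : Type} [AddCommGroup G] {P : G} {p t i : ℕ} (hp : p.Prime) (hi1 : 1 ≤ i)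
    (hit : i ≤ t) (hP : p ^ t • P = 0) (hP0 : p ^ (t - 1) • P ≠ 0) {k : ℕ} (hk : 0 < k)
    (hki : k < p ^ i) : k • (p ^ (t - i) • P) ≠ 0 := by
  intro h
  have h1 : p ^ i • (p ^ (t - i) • P) = 0 := by
    rw [smul_smul, ← pow_add, Nat.add_sub_cancel' hit]
    exact hP
  have h2 : addOrderOf (p ^ (t - i) • P) ∣ p ^ i := addOrderOf_dvd_of_nsmul_eq_zero h1
  have h3 : addOrderOf (p ^ (t - i) • P) ∣ k := addOrderOf_dvd_of_nsmul_eq_zero h
  obtain ⟨s, hs, hs'⟩ := (Nat.dvd_prime_pow hp).1 h2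
  rcases lt_or_eq_of_le hs with h4 | h4
  · apply hP0
    have h5 : addOrderOf (p ^ (t - i) • P) ∣ p ^ (i - 1) := by
      rw [hs']
      exact pow_dvd_pow p (by omega)
    have h6 := addOrderOf_dvd_iff_nsmul_eq_zero.1 h5
    rw [smul_smul, ← pow_add] at h6
    have h7 : i - 1 + (t - i) = t - 1 := by omega
    rwa [h7] at h6
  · rw [hs', h4] at h3
    exact absurd (Nat.le_of_dvd hk h3) (by omega)

end

section main
variable {K : Type} [Field K] [NumberField K]

open scoped Classical in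
/-- **a stable cyclic subgroup of order `p ^ t` bounds the part of the height of the invariant which
comes from the poles of an order not divisible by `p ^ (t + 2 - 2 i)`** -/
theorem desc {M : ℕ} {C : ℝ} (hE : ∀ (K : Type) [Field K] [NumberField K] [DecidableEq K]
      (a b e₁ e₂ e₃ : K), e₁ + e₂ + e₃ = 0 → a = e₁ * e₂ + e₁ * e₃ + e₂ * e₃ →
      b = -(e₁ * e₂ * e₃) → a ≠ 0 → b ≠ 0 → dl a b ≠ 0 →
      ∀ (V : Finset (Pr K)), (∀ v ∈ V, Gw a b v) → ∀ (P : Pt a b) (q : ℕ), 0 < q → q • P = 0 →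
      (∀ k : ℕ, 0 < k → k < M → k • P ≠ 0) →
      (∀ v ∈ V, ∀ (n : ℕ) (x y : K) (hn : (CV a b).toAffine.Nonsingular x y),
        n • P = Affine.Point.some x y hn → Good (fv v) a b x) →
      ∑ v ∈ V, Real.log (fv v (jj a b)) ≤ 1 / M * ht (jj a b) + Module.finrank ℚ K * C)
    (hLVL : S_LVL) {A B : K} (hD : 4 * A ^ 3 + 27 * B ^ 2 ≠ 0)
    (hA0 : A ≠ 0) (hB0 : B ≠ 0) {p t i : ℕ} (hp : p.Prime) (hi1 : 1 ≤ i) (hit : i ≤ t)
    (h2i : 2 * i ≤ t + 1) (h2i' : i = 1 ∨ 2 * i ≤ t) (hM : M ≤ p ^ i) (V : Finset (Pr K))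
    (hV : ∀ v ∈ V, fv v 2 = 1 ∧ fv v 3 = 1 ∧ ∃ n : ℕ, 0 < n ∧ ¬ p ^ (t + 2 - 2 * i) ∣ n ∧
      (adv K v).v (jj A B) = -n)
    {v₀ : Pt (ca (AlgebraicClosure K) A) (ca (AlgebraicClosure K) B)} (hv : p ^ t • v₀ = 0)
    (hv0 : p ^ (t - 1) • v₀ ≠ 0)
    (hst : ∀ τ : AlgebraicClosure K ≃ₐ[K] AlgebraicClosure K,
      mp A B (τ : AlgebraicClosure K →ₐ[K] AlgebraicClosure K) v₀ ∈ AddSubgroup.zmultiples v₀) :
    ∑ v ∈ V, Real.log (fv v (jj A B)) ≤ 1 / M * ht (jj A B) + Module.finrank ℚ K * C := by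
  set Kb := AlgebraicClosure K with hKb
  haveI : CharZero Kb := charZero_of_injective_algebraMap (algebraMap K Kb).injective
  have disc_of : Disc (ca Kb A) (ca Kb B) := by
    unfold Disc ca
    refine mul_ne_zero two_ne_zero ?_
    have e : (4 : Kb) * (algebraMap K Kb A) ^ 3 + 27 * (algebraMap K Kb B) ^ 2 =
        algebraMap K Kb (4 * A ^ 3 + 27 * B ^ 2) := by
      simp only [map_mul, map_add, map_pow, map_ofNat]
    rw [e]
    exact (map_ne_zero _).2 hD
  have hpt : 1 ≤ p ^ t := Nat.one_le_pow _ _ hp.pos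
  obtain ⟨fin1, -⟩ := Mul.tor Kb (ca Kb A) (ca Kb B) disc_of (p ^ t) hpt
  set g₃ : Polynomial K := Polynomial.X ^ 3 + Polynomial.C A * Polynomial.X +
    Polynomial.C B with hg₃
  have d₃ : g₃.natDegree = 3 := by rw [hg₃]; compute_degree!
  have n₃ : g₃ ≠ 0 := by intro h; rw [h, Polynomial.natDegree_zero] at d₃; omega
  have finz : {z : Kb | Polynomial.aeval z g₃ = 0}.Finite := by
    have hg' : g₃.map (algebraMap K Kb) ≠ 0 :=
      (Polynomial.map_ne_zero_iff (algebraMap K Kb).injective).2 n₃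
    refine Set.Finite.subset (g₃.map (algebraMap K Kb)).roots.toFinset.finite_toSet ?_
    intro z hz
    rw [Finset.mem_coe, Multiset.mem_toFinset, Polynomial.mem_roots hg', Polynomial.IsRoot.def,
      Polynomial.eval_map_algebraMap]
    exact hz
  have stab : ∀ (σ : Kb ≃ₐ[K] Kb) (z : Kb), Polynomial.aeval z g₃ = 0 →
      Polynomial.aeval (σ z) g₃ = 0 := by
    intro σ z hz
    have e : Polynomial.aeval (σ z) g₃ = σ (Polynomial.aeval z g₃) :=
      Polynomial.aeval_algHom_apply (σ : Kb →ₐ[K] Kb) z g₃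
    rw [e, hz, map_zero]
  obtain ⟨L, iF, iN, iA, iG, ι, hι, hτσ⟩ := Pool.Agent.W150.FMK.Fld.main K
    ((crd A B (p ^ t) : Set Kb) ∪ {z : Kb | Polynomial.aeval z g₃ = 0})
    ((crd_finite A B (p ^ t) fin1).union finz) (by
      rintro σ z (hz | hz)
      · exact Or.inl (crd_map A B (p ^ t) (σ : Kb →ₐ[K] Kb) hz)
      · exact Or.inr (stab σ z hz))
  have ev₃ : ∀ z : Kb, Polynomial.aeval z g₃ = z ^ 3 + ca Kb A * z + ca Kb B := by
    intro z; rw [hg₃]; simp [ca]
  obtain ⟨e₁, e₂, e₃, hsumL, l12, l23, l13, hAL, hBL⟩ := cubic_data A B hD ι (by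
    intro z hz
    exact hι z (Or.inr (by
      show Polynomial.aeval z g₃ = 0
      rw [ev₃]; exact hz)))
  -- the point over `L`
  rcases v₀ with _ | ⟨X, Y, hXY⟩
  · exact absurd (smul_zero _) hv0
  obtain ⟨x', rfl⟩ := hι X (Or.inl ⟨X, Y, hXY, hv, Or.inl rfl⟩)
  obtain ⟨y', rfl⟩ := hι Y (Or.inl ⟨_, Y, hXY, hv, Or.inr rfl⟩)
  have hn : (CV (ca L A) (ca L B)).toAffine.Nonsingular x' y' := ns_desc A B ι hXY
  have hpP : p ^ t • (Affine.Point.some x' y' hn : Pt (ca L A) (ca L B)) = 0 :=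
    (tors_map A B ι (p ^ t) hn hXY).1 hv
  have hpP0 : p ^ (t - 1) • (Affine.Point.some x' y' hn : Pt (ca L A) (ca L B)) ≠ 0 := fun h =>
    hv0 ((tors_map A B ι (p ^ (t - 1)) hn hXY).2 h)
  have hstL : ∀ (σ : L ≃ₐ[K] L) (ha : rh σ (ca L A) = ca L A) (hb : rh σ (ca L B) = ca L B),
      ∃ m : ℤ, ac two_ne_zero (rh σ) ha hb (Affine.Point.some x' y' hn : Pt (ca L A) (ca L B)) =
        m • (Affine.Point.some x' y' hn : Pt (ca L A) (ca L B)) := by
    intro σ ha hb
    obtain ⟨τ, hτ, -⟩ := hτσ σ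
    obtain ⟨m, hm⟩ := AddSubgroup.mem_zmultiples_iff.1 (hst τ)
    refine ⟨m, ?_⟩
    apply mp_injective A B ι
    rw [map_zsmul, mp_some A B ι hn, ac_some, mp_some A B ι]
    refine Eq.trans ?_ hm.symm
    rw [mp_some, Affine.Point.some.injEq]
    exact ⟨hτ x', hτ y'⟩
  -- the places
  have hj0 : jj A B ≠ 0 := by
    unfold jj
    exact div_ne_zero (mul_ne_zero (by norm_num) (pow_ne_zero 3 hA0)) hD
  have hjL : jr e₁ e₂ e₃ = algebraMap K L (jj A B) := by
    unfold jr jj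
    have hDL : algebraMap K L (4 * A ^ 3 + 27 * B ^ 2) =
        -((e₁ - e₂) * (e₂ - e₃) * (e₃ - e₁)) ^ 2 := by
      simp only [map_mul, map_add, map_pow, map_ofNat]
      rw [hAL, hBL]
      have : e₃ = -e₁ - e₂ := by linear_combination hsumL
      rw [this]; ring
    have hdL : ((e₁ - e₂) * (e₂ - e₃) * (e₃ - e₁)) ≠ 0 :=
      mul_ne_zero (mul_ne_zero (sub_ne_zero.2 l12) (sub_ne_zero.2 l23)) (sub_ne_zero.2 l13.symm)
    rw [map_div₀, hDL]
    simp only [map_mul, map_pow, map_ofNat]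
    rw [hAL]
    have : e₃ = -e₁ - e₂ := by linear_combination hsumL
    subst this
    rw [div_eq_div_iff (pow_ne_zero 2 hdL) (neg_ne_zero.2 (pow_ne_zero 2 hdL))]
    ring
  obtain ⟨W, hW1, hW2⟩ := above_sum L V
  have hlocal : ∀ w ∈ W, Gw (ca L A) (ca L B) w ∧
      ∀ (n : ℕ) (x y : L) (hn' : (CV (ca L A) (ca L B)).toAffine.Nonsingular x y),
        n • (p ^ (t - i) • (Affine.Point.some x' y' hn : Pt (ca L A) (ca L B))) =
          Affine.Point.some x y hn' → Good (fv w) (ca L A) (ca L B) x := by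
    intro w hw
    obtain ⟨v, hvV, hwv⟩ := hW1 w hw
    obtain ⟨hS2, hS3, nn, hnn, hpnn, hvj⟩ := hV v hvV
    obtain ⟨f1, f2⟩ := Pool.Agent.N495.TS.mult_facts (a := A) (b := B) hD hj0 hS2 hS3 hnn hvj
    have hdeg := ldeg_pos v w hwv
    have ext := fv_ext v w hwv
    have g2 : fv w (2 : L) = 1 := by
      have := ext 2
      rwa [map_ofNat, hS2, one_pow] at this
    have g3 : fv w (3 : L) = 1 := by
      have := ext 3
      rwa [map_ofNat, hS3, one_pow] at this
    have gA : fv w (ca L A) = fv v A ^ ldeg v w := ext A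
    have gB : fv w (ca L B) = fv v B ^ ldeg v w := ext B
    have gD : fv w (dl (ca L A) (ca L B)) = fv v (dl A B) ^ ldeg v w := by
      have e : dl (ca L A) (ca L B) = algebraMap K L (dl A B) := by
        unfold dl ca
        simp only [map_mul, map_add, map_pow, map_ofNat]
      rw [e]
      exact ext _
    refine ⟨⟨g2, g3, ?_, ?_⟩, ?_⟩
    · rw [gA, gB, ← pow_mul, ← pow_mul, mul_comm _ 3, mul_comm _ 2, pow_mul, pow_mul, f1]
    · rw [gD, gB, ← pow_mul, mul_comm _ 2, pow_mul]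
      exact pow_lt_pow_left₀ f2 (apply_nonneg _ _) hdeg.ne'
    · obtain ⟨v', hv', hadv⟩ := adv_w K L w
      have hvv : v' = v := by
        apply HeightOneSpectrum.ext
        rw [hv']
        exact hwv.over.symm
      subst hvv
      have a2 : (adv K v').v 2 = 0 := (Pool.Agent.Y673.Cnt.fv_eq_one_iff v' two_ne_zero).1 hS2
      have aj : (adv K v').v (jj A B) = -nn := hvj
      set c : ℤ := (Nat.card (w.asIdeal.inertia (L ≃ₐ[K] L)) : ℤ) with hc
      have hc1 : 1 ≤ c := by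
        rw [hc]
        haveI : Finite (L ≃ₐ[K] L) := inferInstance
        exact_mod_cast Nat.card_pos (α := w.asIdeal.inertia (L ≃ₐ[K] L))
      have h2L : (adv L w).E 0 (2 : L) := by
        refine ⟨two_ne_zero, ?_⟩
        have := hadv 2
        rwa [map_ofNat, a2, mul_zero] at this
      have hEj : (adv L w).E (-(nn * c)) (jr e₁ e₂ e₃) := by
        rw [hjL]
        refine ⟨(map_ne_zero _).2 hj0, ?_⟩
        rw [hadv, aj]
        ring
      have hnc : 0 < (nn : ℤ) * c := by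
        have : (0 : ℤ) < nn := by exact_mod_cast hnn
        positivity
      obtain ⟨e, η, H, D, hH, hcA, hcB⟩ := root_data le_rfl h2L (by norm_num) hsumL l12 l23 l13
        (by omega) hEj
      intro k x y hn' hk
      exact lvl_good hLVL w D (A := A) (B := B) rfl rfl (hAL.trans hcA) (hBL.trans hcB)
        (by rw [hH, neg_neg]) hp hi1 hit h2i h2i' hpnn hpP hpP0 hstL g2 g3 k x y hn' hk
  -- the inequality over `L`
  have hDL0 : dl (ca L A) (ca L B) ≠ 0 := by
    have e : dl (ca L A) (ca L B) = algebraMap K L (dl A B) := by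
      unfold dl ca
      simp only [map_mul, map_add, map_pow, map_ofNat]
    rw [e]
    exact (map_ne_zero _).2 hD
  have hAL0 : ca L A ≠ 0 := (map_ne_zero (algebraMap K L)).2 hA0
  have hBL0 : ca L B ≠ 0 := (map_ne_zero (algebraMap K L)).2 hB0
  have hfinal := hE L (ca L A) (ca L B) e₁ e₂ e₃ hsumL hAL hBL hAL0 hBL0 hDL0 W
    (fun w hw => (hlocal w hw).1)
    (p ^ (t - i) • (Affine.Point.some x' y' hn : Pt (ca L A) (ca L B))) (p ^ i)
    (pow_pos hp.pos _) (by
      rw [smul_smul, ← pow_add, Nat.add_sub_cancel' hit]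
      exact hpP)
    (fun k hk hkM => mult_ne hp hi1 hit hpP hpP0 hk (hkM.trans_le hM))
    (fun w hw => (hlocal w hw).2)
  have hjj : jj (ca L A) (ca L B) = algebraMap K L (jj A B) := by
    unfold jj ca
    simp only [map_div₀, map_mul, map_add, map_pow, map_ofNat]
  rw [hjj, hW2] at hfinal
  have hhtL : ht (algebraMap K L (jj A B)) = Module.finrank K L * ht (jj A B) := by
    have h1 := Pool.Agent.Y673.DK.ht_ext K L (jj A B)
    rw [logHeight_eq, ← ht_eq_Sa, logHeight_eq, ← ht_eq_Sa] at h1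
    exact h1
  have hfr : (Module.finrank ℚ L : ℝ) = Module.finrank ℚ K * Module.finrank K L := by
    exact_mod_cast (Module.finrank_mul_finrank ℚ K L).symm
  have hm0 : (0 : ℝ) < Module.finrank K L := by
    haveI : FiniteDimensional K L := Module.Finite.of_restrictScalars_finite ℚ K L
    exact_mod_cast Module.finrank_pos
  rw [hhtL, hfr] at hfinal
  have h7 : (Module.finrank K L : ℝ) * ∑ v ∈ V, Real.log (fv v (jj A B)) ≤
      Module.finrank K L * (1 / M * ht (jj A B) + Module.finrank ℚ K * C) := by linarith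
  exact le_of_mul_le_mul_left h7 hm0

end main

end Pool.Agent.P8H9.TQ
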