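import Mathlib
import Pool.Agent.P8H9.TQ.Desc

/-!
# The orders of the stable cyclic subgroups under a bound for the Szpiro ratio (helper9)
-/

set_option autoImplicit false
set_option linter.unusedSectionVars false
set_option linter.style.haveILetI false

namespace Pool.Agent.P8H9.TQ

open WeierstrassCurve NumberField IsDedekindDomain Pool.Agent.H901R3.MS Pool.Agent.Y673.Loc
open Pool.Agent.Y673.Loc.ZV Pool.Agent.W275.FM Pool.Agent.W275.FMK Pool.Agent.Y673.FM
open Pool.Agent.H691R3 Pool.Agent.W223.AK Pool.Agent.Y733.LS Pool.Agent.TH942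
open Pool.Agent.Q19.SU

section
variable {K : Type} [Field K] [NumberField K]

open Classical in
/-- the contribution of the poles of `j` to the logarithm of the radical -/
noncomputable def rad (j : K) : ℝ := ∑ᶠ v : Pr K, if 1 < fv v j then Real.log (Nv v) else 0

theorem Fs_rad (j : K) [∀ v : Pr K, Decidable (1 < fv v j)] : (Function.support fun v : Pr K =>
    if 1 < fv v j then Real.log (Nv v) else 0).Finite := by
  refine (ne_sets (one_ne_zero) (one_ne_zero) j).subset ?_
  intro v hv
  rw [Function.mem_support] at hv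
  right
  right
  by_contra hcon
  exact hv (if_neg hcon)

/-- **the radical and the poles of small order** -/
theorem rad_le {j : K} (hj0 : j ≠ 0) (V : Finset (Pr K)) (m : ℕ) (R : ℝ) (hR : 0 < R) (hm : R ≤ m)
    (hV : ∀ v : Pr K, 1 < fv v j → v ∉ V → fv v 2 = 1 → fv v 3 = 1 → (m : ℤ) ∣ (adv K v).v j)
    (hV1 : ∀ v ∈ V, 1 < fv v j) :
    rad j ≤ ∑ v ∈ V, Real.log (fv v j) + Module.finrank ℚ K * Real.log 6 + 1 / R * ht j := by
  classical
  have s1 := Fs_W V j
  have s2 : (Function.support fun v : Pr K => Real.log (fv v (6 : K))).Finite :=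
    Fs_log (K := K) (z := (6 : K)) (by norm_num)
  have s3 : (Function.support fun v : Pr K => Real.log (max (fv v j) 1)).Finite := Fs_ht j
  have s4 := Fs_rad j
  have e0 : rad j = Sm (fun _ : InfinitePlace K => (0 : ℝ))
      (fun v : Pr K => if 1 < fv v j then Real.log (Nv v) else 0) := by
    unfold rad Sm
    simp only [mul_zero, Finset.sum_const_zero, zero_add]
  have e1 : Sm (fun w : InfinitePlace K => (0 : ℝ) + (0 + 1 / R * Real.log (max (w.1 j) 1)))
      (fun v : Pr K => (if v ∈ V then Real.log (fv v j) else 0) +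
        (-1 * Real.log (fv v (6 : K)) + 1 / R * Real.log (max (fv v j) 1))) =
      ∑ v ∈ V, Real.log (fv v j) + (Module.finrank ℚ K * Real.log 6 + 1 / R * ht j) := by
    rw [Sm_add s1 (supp_add (supp_mul _ s2) (supp_mul _ s3)), Sm_add (supp_mul _ s2)
      (supp_mul _ s3), Sm_mul, ht_eq_Sa]
    have h1 : Sm (fun _ : InfinitePlace K => (0 : ℝ)) (fun v : Pr K =>
        if v ∈ V then Real.log (fv v j) else 0) = ∑ v ∈ V, Real.log (fv v j) := Sm_W V j
    have h2 : Sm (fun _ : InfinitePlace K => (0 : ℝ)) (fun v : Pr K =>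
        -1 * Real.log (fv v (6 : K))) = Module.finrank ℚ K * Real.log 6 := by
      have h5 := fin_nat (K := K) (n := 6) (by norm_num)
      have h8 := smul_finsum (-1 : ℝ) (fun v : Pr K => Real.log (fv v ((6 : ℕ) : K)))
      simp only [smul_eq_mul] at h8
      rw [h5] at h8
      unfold Sm
      simp only [mul_zero, Finset.sum_const_zero, zero_add]
      push_cast at h8
      rw [← h8]
      ring
    rw [h1, h2]
    rfl
  have hle : Sm (fun _ : InfinitePlace K => (0 : ℝ))
      (fun v : Pr K => if 1 < fv v j then Real.log (Nv v) else 0) ≤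
      Sm (fun w : InfinitePlace K => (0 : ℝ) + (0 + 1 / R * Real.log (max (w.1 j) 1)))
      (fun v : Pr K => (if v ∈ V then Real.log (fv v j) else 0) +
        (-1 * Real.log (fv v (6 : K)) + 1 / R * Real.log (max (fv v j) 1))) := by
    refine Sm_mono s4 (supp_add s1 (supp_add (supp_mul _ s2) (supp_mul _ s3))) ?_ ?_
    · intro w
      have : 0 ≤ Real.log (max (w.1 j) 1) := Real.log_nonneg (le_max_right _ _)
      positivity
    · intro v
      have hN := Nv_one_lt v
      have hlN : 0 < Real.log (Nv v) := Real.log_pos hN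
      have h1 : 0 ≤ Real.log (max (fv v j) 1) := Real.log_nonneg (le_max_right _ _)
      have h1' : 0 ≤ 1 / R * Real.log (max (fv v j) 1) := by positivity
      have h6 : Real.log (fv v (6 : K)) ≤ 0 := by
        have : fv v (6 : K) ≤ 1 := (fv_Na v).ofNat 6
        exact Real.log_nonpos (apply_nonneg _ _) this
      have h2 : 0 ≤ (if v ∈ V then Real.log (fv v j) else 0) := by
        split_ifs with hv
        · exact Real.log_nonneg (hV1 v hv).le
        · exact le_rfl
      by_cases hj : 1 < fv v j
      · rw [if_pos hj]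
        have hfa := Pool.Agent.Y673.Cnt.fv_adv v hj0
        have hneg : (adv K v).v j < 0 := by
          by_contra hcon
          rw [not_lt] at hcon
          rw [hfa] at hj
          have : (Nv v) ^ (-(adv K v).v j) ≤ 1 := zpow_le_one_of_nonpos₀ hN.le (by omega)
          linarith
        obtain ⟨n, hn⟩ : ∃ n : ℕ, (adv K v).v j = -n := ⟨((adv K v).v j).natAbs, by omega⟩
        have hn1 : 1 ≤ n := by omega
        have e2 : fv v j = (Nv v) ^ n := by rw [hfa, hn, neg_neg, zpow_natCast]
        have e3 : Real.log (fv v j) = n * Real.log (Nv v) := by rw [e2, Real.log_pow]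
        have hn1R : (1 : ℝ) ≤ n := by exact_mod_cast hn1
        by_cases hv : v ∈ V
        · rw [if_pos hv, e3]
          nlinarith
        · rw [if_neg hv] at h2 ⊢
          by_cases h23 : fv v 2 = 1 ∧ fv v 3 = 1
          · have hdvd := hV v hj hv h23.1 h23.2
            rw [hn, dvd_neg] at hdvd
            have hdvd' : m ∣ n := by exact_mod_cast hdvd
            have hmn : m ≤ n := Nat.le_of_dvd (by omega) hdvd'
            have hRn : R ≤ n := hm.trans (by exact_mod_cast hmn)
            rw [max_eq_left hj.le, e3]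
            have h3 : Real.log (Nv v) ≤ 1 / R * (n * Real.log (Nv v)) := by
              rw [one_div, inv_mul_eq_div, le_div_iff₀ hR]
              nlinarith
            linarith
          · have hlt : fv v (6 : K) < 1 := by
              have e6 : fv v (6 : K) = fv v 2 * fv v 3 := by
                rw [← map_mul]
                norm_num
              have n2 : fv v (2 : K) ≤ 1 := (fv_Na v).ofNat 2
              have n3 : fv v (3 : K) ≤ 1 := (fv_Na v).ofNat 3
              have p2 : 0 < fv v (2 : K) := (fv v).pos (by norm_num)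
              have p3 : 0 < fv v (3 : K) := (fv v).pos (by norm_num)
              rw [e6]
              rcases lt_or_eq_of_le n2 with h | h
              · nlinarith
              · rcases lt_or_eq_of_le n3 with h' | h'
                · rw [h, one_mul]
                  exact h'
                · exact absurd ⟨h, h'⟩ h23
            have h60 : (6 : K) ≠ 0 := by norm_num
            have hfa6 := Pool.Agent.Y673.Cnt.fv_adv v h60
            have hpos : 1 ≤ (adv K v).v (6 : K) := by
              by_contra hcon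
              rw [not_le] at hcon
              rw [hfa6] at hlt
              have : 1 ≤ (Nv v) ^ (-(adv K v).v (6 : K)) := one_le_zpow₀ hN.le (by omega)
              linarith
            have e6 : Real.log (fv v (6 : K)) = -((adv K v).v (6 : K) : ℝ) * Real.log (Nv v) := by
              rw [hfa6, Real.log_zpow]
              push_cast
              ring
            have hposR : (1 : ℝ) ≤ ((adv K v).v (6 : K) : ℝ) := by exact_mod_cast hpos
            rw [e6]
            nlinarith
      · rw [if_neg hj]
        linarith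
  rw [e0]
  refine hle.trans (le_of_eq ?_)
  rw [e1]
  ring

theorem exists_pole {j : K} (h : 0 < rad j) : ∃ v : Pr K, 1 < fv v j := by
  classical
  by_contra hcon
  push Not at hcon
  have : rad j = 0 := by
    unfold rad
    have e : (fun v : Pr K => if 1 < fv v j then Real.log (Nv v) else 0) = fun _ => 0 := by
      funext v
      rw [if_neg (not_lt.2 (hcon v))]
    rw [e, finsum_zero]
  linarith

theorem ht_nonneg' (j : K) : 0 ≤ ht j := by
  rw [ht_eq_Sa]
  unfold Sa
  exact Sm_nonneg (fun w => Real.log_nonneg (le_max_right _ _))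
    (fun v => Real.log_nonneg (le_max_right _ _))

open scoped Classical in
/-- **the orders of the stable cyclic subgroups** -/
theorem cyc (hARC : C_ARC) (hFIN : C_FIN) (hKNA : S_KNA) (hFEJ : S_FEJ) (hTEL : S_TEL)
    (hLVL : S_LVL) (β : ℝ) (hβ : 0 < β) : ∃ (N : ℕ) (C : ℝ), 0 < N ∧ 0 ≤ C ∧
    ∀ (K : Type) [Field K] [NumberField K] (A B : K), 4 * A ^ 3 + 27 * B ^ 2 ≠ 0 →
    C * Module.finrank ℚ K ≤ ht (jj A B) → β * ht (jj A B) ≤ rad (jj A B) →
    ∀ c : EP A B, IsOfFinAddOrder c → (∀ σ, act A B σ c ∈ AddSubgroup.zmultiples c) →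
    addOrderOf c ∣ N := by
  obtain ⟨R, hR, hR2⟩ : ∃ R : ℕ, 4 / β ≤ R ∧ 2 ≤ R :=
    ⟨⌈4 / β⌉₊ + 2, (Nat.le_ceil _).trans (by push_cast; linarith), by omega⟩
  obtain ⟨C₀, hC₀, hE⟩ := eps hARC hFIN hKNA hFEJ hTEL R hR2
  have hl6 : 0 ≤ Real.log 6 := Real.log_nonneg (by norm_num)
  refine ⟨R.factorial ^ (3 * R), 2 / β * (C₀ + Real.log 6) + 1, by positivity, by positivity, ?_⟩
  intro K _ _ A B hD hht hrad c hc hst
  have hRR : (0 : ℝ) < R := by
    have : 0 < R := by omega
    exact_mod_cast this
  set j := jj A B with hj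
  set d : ℝ := (Module.finrank ℚ K : ℝ) with hd
  have hd1 : 1 ≤ d := by
    have : 0 < Module.finrank ℚ K := Module.finrank_pos
    rw [hd]
    exact_mod_cast this
  have hC1 : 0 ≤ 2 / β * (C₀ + Real.log 6) := by positivity
  have hht0 : 0 < ht j := by nlinarith
  obtain ⟨v₁, hv₁⟩ := exists_pole (j := j) (by nlinarith)
  have hA0 : A ≠ 0 := by
    rintro rfl
    have : j = 0 := by
      rw [hj]
      unfold jj
      simp
    rw [this, map_zero] at hv₁
    linarith
  have hj0 : j ≠ 0 := by
    rw [hj]
    unfold jj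
    exact div_ne_zero (mul_ne_zero (by norm_num) (pow_ne_zero 3 hA0)) hD
  have hB0 : B ≠ 0 := by
    rintro rfl
    have : j = (1728 : K) := by
      rw [hj]
      unfold jj
      field_simp
      ring
    rw [this] at hv₁
    have : fv v₁ (1728 : K) ≤ 1 := (fv_Na v₁).ofNat 1728
    linarith
  -- the contradiction
  have contr : ∀ p t i : ℕ, p.Prime → 1 ≤ i → i ≤ t → 2 * i ≤ t + 1 → (i = 1 ∨ 2 * i ≤ t) →
      R ≤ p ^ i → R ≤ p ^ (t + 2 - 2 * i) → p ^ t ∣ addOrderOf c → False := by
    intro p t i hp hi1 hit h2i h2i' hM hm hdvd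
    obtain ⟨q, hq⟩ := hdvd
    have hn0 : 0 < addOrderOf c := hc.addOrderOf_pos
    have hq0 : 0 < q := by
      rcases Nat.eq_zero_or_pos q with h | h
      · rw [h, mul_zero] at hq
        omega
      · exact h
    set c' : EP A B := q • c with hc'
    have hord : addOrderOf c' = p ^ t := by
      rw [hc', addOrderOf_nsmul_of_dvd hq0.ne' (by rw [hq]; exact Dvd.intro_left _ rfl), hq]
      exact Nat.mul_div_cancel _ hq0
    have hst' : ∀ σ, act A B σ c' ∈ AddSubgroup.zmultiples c' := by
      intro σ
      obtain ⟨r, hr⟩ := AddSubgroup.mem_zmultiples_iff.1 (hst σ)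
      refine AddSubgroup.mem_zmultiples_iff.2 ⟨r, ?_⟩
      rw [hc', map_nsmul, ← hr, ← natCast_zsmul, ← natCast_zsmul, ← mul_zsmul, ← mul_zsmul,
        mul_comm]
    set e := eqv A B (AlgebraicClosure K) with he
    have hfin : {v : Pr K | 1 < fv v j}.Finite :=
      (ne_sets (one_ne_zero) (one_ne_zero) j).subset fun v hv => Or.inr (Or.inr hv)
    set V : Finset (Pr K) := hfin.toFinset.filter
      (fun v => fv v 2 = 1 ∧ fv v 3 = 1 ∧ ¬ ((p ^ (t + 2 - 2 * i) : ℕ) : ℤ) ∣ (adv K v).v j)
      with hV
    have hmem : ∀ v, v ∈ V ↔ 1 < fv v j ∧ fv v 2 = 1 ∧ fv v 3 = 1 ∧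
        ¬ ((p ^ (t + 2 - 2 * i) : ℕ) : ℤ) ∣ (adv K v).v j := by
      intro v
      rw [hV, Finset.mem_filter, Set.Finite.mem_toFinset]
      rfl
    have hpos1 : 1 ≤ t := hi1.trans hit
    have h1 := desc hE hLVL hD hA0 hB0 hp hi1 hit h2i h2i' hM V (by
      intro v hv
      obtain ⟨h1, h2, h3, h4⟩ := (hmem v).1 hv
      refine ⟨h2, h3, ?_⟩
      have hN := Nv_one_lt v
      have hfa := Pool.Agent.Y673.Cnt.fv_adv v hj0
      have hneg : (adv K v).v j < 0 := by
        by_contra hcon
        rw [not_lt] at hcon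
        rw [hfa] at h1
        have : (Nv v) ^ (-(adv K v).v j) ≤ 1 := zpow_le_one_of_nonpos₀ hN.le (by omega)
        linarith
      refine ⟨((adv K v).v j).natAbs, by omega, ?_, ?_⟩
      · intro h5
        apply h4
        exact Int.natCast_dvd.2 h5
      · rw [← hj]
        omega) (v₀ := e c') (by
        rw [← map_nsmul, ← hord, addOrderOf_nsmul_eq_zero, map_zero]) (by
        intro h0
        rw [← map_nsmul, map_eq_zero_iff e e.injective] at h0
        have h5 := addOrderOf_dvd_of_nsmul_eq_zero h0
        rw [hord] at h5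
        have h6 := Nat.le_of_dvd (pow_pos hp.pos _) h5
        have h7 : p ^ (t - 1) < p ^ t := Nat.pow_lt_pow_right hp.one_lt (by omega)
        omega) (by
        intro τ
        rw [← gal_eqv]
        obtain ⟨r, hr⟩ := AddSubgroup.mem_zmultiples_iff.1 (hst' τ)
        refine AddSubgroup.mem_zmultiples_iff.2 ⟨r, ?_⟩
        rw [← map_zsmul, hr]
        rfl)
    rw [← hj, ← hd] at h1
    have h2 := rad_le hj0 V (p ^ (t + 2 - 2 * i)) R hRR (by exact_mod_cast hm) (by
      intro v hv1 hv2 hv3 hv4
      by_contra hcon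
      exact hv2 ((hmem v).2 ⟨hv1, hv3, hv4, hcon⟩)) (fun v hv => ((hmem v).1 hv).1)
    rw [← hd] at h2
    have h3 : 1 / (R : ℝ) ≤ β / 4 := by
      rw [one_div, inv_le_comm₀ hRR (by positivity), inv_div]
      exact hR
    have h4 : 1 / (R : ℝ) * ht j ≤ β / 4 * ht j := mul_le_mul_of_nonneg_right h3 hht0.le
    have h5 : β / 2 * ht j ≤ d * (C₀ + Real.log 6) := by linarith
    have h6 : β / 2 * ((2 / β * (C₀ + Real.log 6) + 1) * d) ≤ β / 2 * ht j :=
      mul_le_mul_of_nonneg_left hht (by positivity)
    have h7 : β / 2 * ((2 / β * (C₀ + Real.log 6) + 1) * d) =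
        d * (C₀ + Real.log 6) + β / 2 * d := by
      field_simp
    have h8 : 0 < β / 2 * d := by positivity
    linarith
  -- the order
  have hn0 : addOrderOf c ≠ 0 := hc.addOrderOf_pos.ne'
  have hN0 : R.factorial ^ (3 * R) ≠ 0 := pow_ne_zero _ (Nat.factorial_ne_zero _)
  rw [← Nat.factorization_prime_le_iff_dvd hn0 hN0]
  intro p hp
  set t := (addOrderOf c).factorization p with ht'
  have hdt : p ^ t ∣ addOrderOf c := Nat.ordProj_dvd _ _
  rcases Nat.eq_zero_or_pos t with h0 | h0
  · rw [h0]
    exact Nat.zero_le _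
  have hpR : p < R := by
    by_contra hcon
    rw [not_lt] at hcon
    exact contr p 1 1 hp le_rfl le_rfl le_rfl (Or.inl rfl) (by rw [pow_one]; exact hcon)
      (by
        have : 1 + 2 - 2 * 1 = 1 := rfl
        rw [this, pow_one]
        exact hcon)
      ((pow_dvd_pow p h0).trans hdt)
  have hpow : R ≤ p ^ R := (Nat.lt_pow_self hp.one_lt).le
  have ht3 : t < 3 * R := by
    by_contra hcon
    rw [not_lt] at hcon
    exact contr p (3 * R) R hp (by omega) (by omega) (by omega) (Or.inr (by omega)) hpow
      (hpow.trans (Nat.pow_le_pow_right hp.pos (by omega)))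
      ((pow_dvd_pow p hcon).trans hdt)
  have hfac : 1 ≤ (R.factorial).factorization p := by
    have h1 : p ∣ R.factorial := Nat.dvd_factorial hp.pos hpR.le
    exact (hp.dvd_iff_one_le_factorization (Nat.factorial_ne_zero _)).1 h1
  rw [Nat.factorization_pow]
  show t ≤ 3 * R * (R.factorial).factorization p
  nlinarith

end

end Pool.Agent.P8H9.TQ
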