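import Mathlib
import Pool.Agent.P8H9.TQ.Fin
import Pool.Agent.Y673.SL.Bs
import Pool.Agent.N617.TS.TORSM
import Pool.Agent.N152.TS.SIZE

/-!
# Torsion of the abelian varieties isogenous to products (helper9; `span2` and the reduction to stable
cyclic subgroups are due to helper495)
-/

set_option autoImplicit false
set_option linter.unusedSectionVars false
set_option linter.style.haveILetI false

namespace Pool.Agent.P8H9.TQ

open WeierstrassCurve NumberField IsDedekindDomain Pool.Agent.H901R3.MS Pool.Agent.Y673.Loc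
open Pool.Agent.H691R3 Pool.Agent.W223.AK Pool.Agent.Y733.LS
open Pool.Agent.W275.FM Pool.Agent.Y673.SL

open scoped Classical in
/-- the torsion of prime order is spanned by two elements -/
theorem span2 {K : Type} [Field K] [NumberField K] {A B : K} (hD : 4 * A ^ 3 + 27 * B ^ 2 ≠ 0)
    {q : ℕ} (hq : q.Prime) : ∃ P Q : EP A B, q • P = 0 ∧ q • Q = 0 ∧
      ∀ R : EP A B, q • R = 0 → ∃ m n : ℤ, R = m • P + n • Q := by
  haveI : CharZero (AlgebraicClosure K) :=
    charZero_of_injective_algebraMap (algebraMap K (AlgebraicClosure K)).injective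
  obtain ⟨hfin, hcard⟩ := Mul.tor (AlgebraicClosure K) _ _ (Pool.Agent.Y673.FM.disc_ca hD) q hq.one_le
  set e := eqv A B (AlgebraicClosure K) with he
  set S : Set (EP A B) := {P | q • P = 0} with hS
  have himg : e '' S = {P | q • P = 0} := by
    ext P
    constructor
    · rintro ⟨R, hR, rfl⟩
      show q • e R = 0
      rw [← map_nsmul, (show q • R = 0 from hR), map_zero]
    · intro hP
      refine ⟨e.symm P, ?_, AddEquiv.apply_symm_apply _ _⟩
      show q • e.symm P = 0
      rw [← map_nsmul, (show q • P = 0 from hP), map_zero]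
  have hScard : q ^ 2 ≤ S.ncard := by
    rw [← Set.ncard_image_of_injective S e.injective, himg]
    exact hcard
  have h2 := hq.two_le
  obtain ⟨P, hP, hP0⟩ : ∃ P ∈ S, P ≠ 0 := by
    by_contra hcon
    push Not at hcon
    have h1 : S ⊆ {0} := fun P hP => hcon P hP
    have h3 := Set.ncard_le_ncard h1 (Set.finite_singleton _)
    rw [Set.ncard_singleton] at h3
    nlinarith
  obtain ⟨Q, hQ, hPQ⟩ : ∃ Q ∈ S, Q ∉ AddSubgroup.zmultiples P := by
    by_contra hcon
    push Not at hcon
    have h1 : S ⊆ (AddSubgroup.zmultiples P : Set (EP A B)) := fun Q hQ => hcon Q hQ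
    have hPo : addOrderOf P ∣ q := addOrderOf_dvd_of_nsmul_eq_zero hP
    have hPo2 : addOrderOf P ≤ q := Nat.le_of_dvd hq.pos hPo
    have hfinP : (AddSubgroup.zmultiples P : Set (EP A B)).Finite := by
      rw [AddSubgroup.coe_zmultiples]
      have hfo : IsOfFinAddOrder P := isOfFinAddOrder_iff_nsmul_eq_zero.2 ⟨q, hq.pos, hP⟩
      have := (finite_zmultiples (a := P)).2 hfo
      exact this
    have h3 := Set.ncard_le_ncard h1 hfinP
    have h4 : (AddSubgroup.zmultiples P : Set (EP A B)).ncard = addOrderOf P := by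
      rw [← Nat.card_coe_set_eq]
      exact Nat.card_zmultiples P
    rw [h4] at h3
    nlinarith
  obtain ⟨h6, -⟩ := basis hD hq hP hQ hP0 hPQ
  exact ⟨P, Q, hP, hQ, h6⟩

/-- poles and valuations -/
theorem one_lt_fv {K : Type} [Field K] [NumberField K] (v : Pr K) (j : K) :
    1 < fv v j ↔ 1 < v.valuation K j := by
  by_cases h0 : j = 0
  · subst h0
    rw [map_zero, map_zero]
    exact ⟨fun h => absurd h (by norm_num), fun h => absurd h (not_lt.2 zero_le')⟩
  have hN := Nv_one_lt v
  have hfa := Pool.Agent.Y673.Cnt.fv_adv v h0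
  have hv0 : v.valuation K j ≠ 0 := (Valuation.ne_zero_iff _).2 h0
  have e : (adv K v).v j = -WithZero.log (v.valuation K j) := rfl
  have h1 : 1 < fv v j ↔ 0 < -(adv K v).v j := by
    rw [hfa]
    exact one_lt_zpow_iff_right₀ hN
  rw [h1, e, neg_neg]
  constructor
  · intro h
    have h2 := (WithZero.log_lt_log one_ne_zero hv0).1 (by rwa [WithZero.log_one])
    exact h2
  · intro h
    have h2 := (WithZero.log_lt_log one_ne_zero hv0).2 h
    rwa [WithZero.log_one] at h2

open scoped Classical in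
/-- **the abelian varieties isogenous to products** -/
theorem tors {N : ℕ} (hN : 0 < N) {K : Type} [Field K] [NumberField K] {g : ℕ} {A B : Fin g → K}
    (hD : ∀ i, 4 * A i ^ 3 + 27 * B i ^ 2 ≠ 0)
    (hc : ∀ i, ∀ c : EP (A i) (B i), IsOfFinAddOrder c →
      (∀ σ, act (A i) (B i) σ c ∈ AddSubgroup.zmultiples c) → addOrderOf c ∣ N)
    (Γ : AddSubgroup (∀ i, EP (A i) (B i))) (hfin : (Γ : Set (∀ i, EP (A i) (B i))).Finite)
    (hst : ∀ σ : AlgebraicClosure K ≃ₐ[K] AlgebraicClosure K, ∀ x ∈ Γ,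
      (fun i => act (A i) (B i) σ (x i)) ∈ Γ)
    {x : ∀ i, EP (A i) (B i)}
    (hx : ∀ σ : AlgebraicClosure K ≃ₐ[K] AlgebraicClosure K,
      (fun i => act (A i) (B i) σ (x i) - x i) ∈ Γ)
    (hf : IsOfFinAddOrder (x : (∀ i, EP (A i) (B i)) ⧸ Γ)) :
    addOrderOf (x : (∀ i, EP (A i) (B i)) ⧸ Γ) ∣ N ^ (2 * g) := by
  obtain ⟨c, w, hcw, hdvd⟩ := Pool.Agent.N617.TS.t_TORSM (AlgebraicClosure K ≃ₐ[K] AlgebraicClosure K) g
    (fun i => EP (A i) (B i)) (fun i σ => act (A i) (B i) σ)
    (fun i q hq => span2 (hD i) hq) Γ hfin (fun σ y hy => hst σ y hy) x (fun σ => hx σ) hf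
  refine hdvd.trans ?_
  have h1 : ∏ i : Fin g, (addOrderOf (c i) * addOrderOf (w i)) ∣ ∏ _i : Fin g, (N * N) := by
    refine Finset.prod_dvd_prod_of_dvd _ _ fun i _ => mul_dvd_mul ?_ ?_
    · exact hc i (c i) (hcw i).1 (hcw i).2.2.1
    · refine hc i (w i) (hcw i).2.1 fun σ => ?_
      have h2 : act (A i) (B i) σ (w i) = w i := (hcw i).2.2.2 σ
      rw [h2]
      exact AddSubgroup.mem_zmultiples _
  refine h1.trans (dvd_of_eq ?_)
  rw [Finset.prod_const, Finset.card_univ, Fintype.card_fin, ← pow_two, ← pow_mul]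

end Pool.Agent.P8H9.TQ
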