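import Mathlib
import Pool.Agent.P8H9.TQ.Span
import Pool.Agent.P8H57.TQ.Arc
import Pool.Agent.P8H57.TQ.Ksm
import Pool.Agent.P8H19.TQ.Seq
import Pool.Agent.P8H19.TQ.Dbl
import Pool.Agent.P8H52.TQ.Lvl
import Pool.Agent.P8H5.TQ.Fej
import Pool.Agent.P8H5.TQ.Law
import Pool.Agent.P8H66.TQ.Near
import Pool.Agent.P8H66.TQ.Kap
import Pool.Agent.P8H66.TQ.Root
import Pool.Agent.P8H38.TQ.Gest
import Pool.Agent.P8H44.TQ.Kfn
import Pool.Agent.P8H44.TQ.Fin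

/-!
# Project TQ: all packages together (helper9 with helper5, 19, 38, 44, 52, 57, 66)
-/

set_option autoImplicit false

namespace Pool.Agent.P8H9.TQ

open WeierstrassCurve NumberField IsDedekindDomain Pool.Agent.H901R3.MS Pool.Agent.Y673.Loc
open Pool.Agent.H691R3 Pool.Agent.W223.AK Pool.Agent.Y733.LS

theorem pairT : S_PAIR := Pool.Agent.P8H66.TQ.t_NEAR Pool.Agent.P8H38.TQ.t_GEST

/-- the complex places -/
theorem arcT : C_ARC := Pool.Agent.P8H57.TQ.arc Pool.Agent.P8H66.TQ.t_KAP Pool.Agent.P8H57.TQ.ksm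
  Pool.Agent.P8H66.TQ.t_ROOT pairT Pool.Agent.P8H19.TQ.Dbl.t_DBL Pool.Agent.P8H5.TQ.t_LAW
  Pool.Agent.P8H19.TQ.Seq.t_SEQ

open scoped Classical in
/-- the orders of the stable cyclic subgroups -/
theorem cyc_of (hFIN : C_FIN) (β : ℝ) (hβ : 0 < β) : ∃ (N : ℕ) (C : ℝ), 0 < N ∧ 0 ≤ C ∧
    ∀ (K : Type) [Field K] [NumberField K] (A B : K), 4 * A ^ 3 + 27 * B ^ 2 ≠ 0 →
    C * Module.finrank ℚ K ≤ ht (jj A B) → β * ht (jj A B) ≤ rad (jj A B) →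
    ∀ c : EP A B, IsOfFinAddOrder c → (∀ σ, act A B σ c ∈ AddSubgroup.zmultiples c) →
    addOrderOf c ∣ N :=
  cyc arcT hFIN Pool.Agent.P8H57.TQ.kna Pool.Agent.P8H5.TQ.t_FEJ Pool.Agent.P8H5.TQ.t_TEL
    Pool.Agent.P8H52.TQ.t_LVL β hβ

/-- the finite places -/
theorem finT : C_FIN := Pool.Agent.P8H44.TQ.fin Pool.Agent.P8H44.TQ.kfn

open scoped Classical in
/-- **the orders of the stable cyclic subgroups** -/
theorem cyc_all (β : ℝ) (hβ : 0 < β) : ∃ (N : ℕ) (C : ℝ), 0 < N ∧ 0 ≤ C ∧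
    ∀ (K : Type) [Field K] [NumberField K] (A B : K), 4 * A ^ 3 + 27 * B ^ 2 ≠ 0 →
    C * Module.finrank ℚ K ≤ ht (jj A B) → β * ht (jj A B) ≤ rad (jj A B) →
    ∀ c : EP A B, IsOfFinAddOrder c → (∀ σ, act A B σ c ∈ AddSubgroup.zmultiples c) →
    addOrderOf c ∣ N :=
  cyc_of finT β hβ

end Pool.Agent.P8H9.TQ
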